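import Pool.Agent.H441.DF.Zeq

/-!
Embedding of projective varieties in intersections of diagonal hypersurfaces.
-/

set_option autoImplicit false

namespace Pool.Agent.H441.DF

open MvPolynomial Pool.Agent.W603.BP Metric
open Pool.Agent.N254.SQ hiding Extends
open scoped LinearAlgebra.Projectivization

/-- quadratic forms which cut out the Veronese image -/
structure Cut {K : Type} [Field K] {n M : ℕ} (v : Fin (M + 1) → Fin (n + 1) → ℕ) {ι ι' : Type}
    (F : ι → MvPolynomial (Fin (n + 1)) K) (q : ι' → MvPolynomial (Fin (M + 1)) K) : Prop where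
  hom : ∀ i, (q i).IsHomogeneous 2
  fwd : ∀ (Ω : Type) [Field Ω] [Algebra K Ω] (x : Fin (n + 1) → Ω), (∀ k, aeval x (F k) = 0) →
      ∀ i, aeval (ver v x) (q i) = 0
  inv : ∀ (Ω : Type) [Field Ω] [Algebra K Ω] (y : Fin (M + 1) → Ω), y ≠ 0 →
      (∀ i, aeval y (q i) = 0) → ∃ (x : Fin (n + 1) → Ω) (a : Fin (n + 1)) (b : Fin (M + 1)),
        x a = 1 ∧ y b ≠ 0 ∧ (∀ c, y c = y b * ver v x c) ∧ ∀ k, aeval x (F k) = 0

theorem exists_cut {K : Type} [Field K] [CharZero K] {n M e : ℕ}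
    {v : Fin (M + 1) → Fin (n + 1) → ℕ} (hv : Mon n M e v) (he : 1 ≤ e) {ι : Type} [Finite ι]
    (F : ι → MvPolynomial (Fin (n + 1)) K) (hF : ∀ i, ∃ d ≤ e, (F i).IsHomogeneous d) :
    ∃ (ι' : Type) (_ : Finite ι') (q : ι' → MvPolynomial (Fin (M + 1)) K), Cut v F q := by
  choose g hg1 hg2 using hF
  obtain ⟨ι', _, q, hq, v1, w1⟩ := t_ver K n M e v hv he ι F g hg2 hg1
  exact ⟨ι', inferInstance, q, hq, v1, fun Ω _ _ y hy h => (w1 Ω y hy h).2⟩

section pts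

variable {K : Type} [Field K] [CharZero K] {n M e N m : ℕ} {v : Fin (M + 1) → Fin (n + 1) → ℕ}
  {a : Fin (N + 1) → Fin (M + 1) → ℕ} {ι ι' : Type} {F : ι → MvPolynomial (Fin (n + 1)) K}
  {q : ι' → MvPolynomial (Fin (M + 1)) K} {k : ℕ} {c : Fin k → Fin (N + 1) → K}

theorem Cut.back (hC : Cut v F q) (hv : Mon n M e v) (he : 1 ≤ e)
    (hF : ∀ i, ∃ d, (F i).IsHomogeneous d) {Ω : Type} [Field Ω] [Algebra K Ω]
    {x : Fin (n + 1) → Ω} (hx : x ≠ 0) (h : ∀ i, aeval (ver v x) (q i) = 0) :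
    ∀ k, aeval x (F k) = 0 := by
  intro k
  obtain ⟨x', a, b, hxa, hyb, hyc, hxF⟩ := hC.inv Ω (ver v x) (ver_ne_zero hv he hx) h
  obtain ⟨c', hc'⟩ := ver_prop hv he hx (x := x') (c := ver v x b) (funext fun c => hyc c)
  rw [hc']
  exact blvp_zero _ (hF k) (hxF k)

/-- the equations in terms of the relations -/
theorem eqs_iff (hc : Submodule.span K (Set.range c) = rel m a q) {Ω : Type} [Field Ω]
    [Algebra K Ω] (y : Fin (N + 1) → Ω) : (∀ i, aeval y (diagonal m (c i)) = 0) ↔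
      ∀ c' ∈ rel m a q, ∑ j, algebraMap K Ω (c' j) * y j ^ m = 0 := by
  constructor
  · intro h
    exact all_rel hc (Y := fun j => y j ^ m) fun i => by
      rw [← diag_aeval]
      exact h i
  · intro h i
    rw [diag_aeval]
    exact h _ (rel_hom hc i)

theorem pts_iff (hm : 2 ≤ m) (ha : Full m a) (hC : Cut v F q) (hv : Mon n M e v) (he : 1 ≤ e)
    (hF : ∀ i, ∃ d, (F i).IsHomogeneous d) (hc : Submodule.span K (Set.range c) = rel m a q)
    {Ω : Type} [Field Ω] [Algebra K Ω] {x : Fin (n + 1) → Ω} (hx : x ≠ 0) :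
    (∀ k, aeval x (F k) = 0) ↔ ∀ i, aeval (lins a (ver v x)) (diagonal m (c i)) = 0 := by
  rw [eqs_iff hc]
  change _ ↔ ∀ c' ∈ rel m a q, ∑ j, algebraMap K Ω (c' j) *
    (∑ l, (a j l : Ω) * ver v x l) ^ m = 0
  rw [← pts_rel hm ha hC.hom]
  exact ⟨hC.fwd Ω x, hC.back hv he hF hx⟩

/-- points over the complex numbers -/
theorem lift_pt (hC : Cut v F q) (hv : Mon n M e v) (he : 1 ≤ e)
    (hF : ∀ i, ∃ d, (F i).IsHomogeneous d) [Algebra K ℂ] {w : Fin (M + 1) → ℂ} (hw : w ≠ 0)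
    (h : ∀ i, aeval w (q i) = 0) : ∃ x : Fin (n + 1) → ℂ, x ≠ 0 ∧ w = ver v x ∧
      ∀ k, aeval x (F k) = 0 := by
  obtain ⟨x, a, b, hxa, hyb, hyc, hxF⟩ := hC.inv ℂ w hw h
  obtain ⟨s, hs⟩ := IsAlgClosed.exists_pow_nat_eq (w b) (n := e) (by omega)
  have hs0 : s ≠ 0 := by
    rintro rfl
    rw [zero_pow (by omega)] at hs
    exact hyb hs.symm
  refine ⟨s • x, ?_, ?_, fun k => blvp_zero _ (hF k) (hxF k)⟩
  · intro h0
    have h1 := congrFun h0 a
    rw [Pi.smul_apply, smul_eq_mul, hxa, mul_one] at h1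
    exact hs0 h1
  · rw [ver_smul hv, hs]
    exact funext fun c => hyc c

/-- **Holomorphic maps from the punctured disc.** -/
theorem punct (hm : 2 ≤ m) (ha : Full m a) (hC : Cut v F q) (hv : Mon n M e v) (he : 1 ≤ e)
    (hF : ∀ i, ∃ d, (F i).IsHomogeneous d) (hc : Submodule.span K (Set.range c) = rel m a q)
    (σ : K →+* ℂ) {f : ℂ → Fin (N + 1) → ℂ} (hf : DifferentiableOn ℂ f (ball 0 1 \ {0}))
    (hf0 : ∀ z ∈ ball (0 : ℂ) 1 \ {0}, f z ≠ 0)
    (hX : ∀ z ∈ ball (0 : ℂ) 1 \ {0}, ∀ i, eval₂ σ (f z) (diagonal m (c i)) = 0)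
    (hE : ¬ Extends f) : ∃ ζ : Fin (N + 1) → ℂ, (∀ j, ζ j ^ m = 1) ∧
      ∀ z ∈ ball (0 : ℂ) 1 \ {0}, ∃ x : Fin (n + 1) → ℂ, x ≠ 0 ∧ (∀ k, eval₂ σ x (F k) = 0) ∧
        ∀ j, f z j = ζ j * lins a (ver v x) j := by
  let _ : Algebra K ℂ := σ.toAlgebra
  obtain ⟨ζ, b, hζ, h⟩ := pcurve_rel σ hm ha q hf hf0 (fun z hz => (eqs_iff hc (f z)).1 (hX z hz))
    hE
  refine ⟨ζ, hζ, fun z hz => ?_⟩
  have hw0 : (fun l => (ζ (b l))⁻¹ * f z (b l)) ≠ 0 := by
    intro h0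
    apply hf0 z hz
    funext j
    rw [h z hz j, Pi.zero_apply]
    have : ∀ l, (ζ (b l))⁻¹ * f z (b l) = 0 := fun l => congrFun h0 l
    simp only [this, mul_zero, Finset.sum_const_zero]
  obtain ⟨x, hx, hwx, hxF⟩ := lift_pt hC hv he hF hw0 (by
    rw [pts_rel hm ha hC.hom]
    intro c' hc'
    rw [← (eqs_iff hc (f z)).1 (hX z hz) c' hc']
    refine Finset.sum_congr rfl fun j _ => ?_
    rw [h z hz j, mul_pow, hζ, one_mul])
  refine ⟨x, hx, hxF, fun j => ?_⟩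
  rw [h z hz j, ← hwx]
  rfl

/-- **Entire curves.** -/
theorem entire (hm : 2 ≤ m) (ha : Full m a) (hC : Cut v F q) (hv : Mon n M e v) (he : 1 ≤ e)
    (hF : ∀ i, ∃ d, (F i).IsHomogeneous d) (hc : Submodule.span K (Set.range c) = rel m a q)
    (σ : K →+* ℂ) {f : ℂ → Fin (N + 1) → ℂ} (hf : Differentiable ℂ f) (hf0 : ∀ z, f z ≠ 0)
    (hX : ∀ z i, eval₂ σ (f z) (diagonal m (c i)) = 0) (hE : ∃ z w, ∀ c : ℂ, f w ≠ c • f z) :
    ∃ (ζ : Fin (N + 1) → ℂ) (x : ℂ → Fin (n + 1) → ℂ), (∀ j, ζ j ^ m = 1) ∧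
      Differentiable ℂ x ∧ (∀ z, x z ≠ 0) ∧ (∀ z k, eval₂ σ (x z) (F k) = 0) ∧
        ∀ z j, f z j = ζ j * lins a (ver v (x z)) j := by
  let _ : Algebra K ℂ := σ.toAlgebra
  obtain ⟨ζ, b, hζ, h⟩ := ecurve_rel σ hm ha q hf hf0 (fun z => (eqs_iff hc (f z)).1 (hX z)) hE
  have hζ0 : ∀ j, ζ j ≠ 0 := by
    intro j h0
    have := hζ j
    rw [h0, zero_pow (by omega)] at this
    exact zero_ne_one this
  let w : ℂ → Fin (M + 1) → ℂ := fun z l => (ζ (b l))⁻¹ * f z (b l)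
  have hw0 : ∀ z, w z ≠ 0 := by
    intro z h0
    apply hf0 z
    funext j
    rw [h z j, Pi.zero_apply]
    have : ∀ l, (ζ (b l))⁻¹ * f z (b l) = 0 := fun l => congrFun h0 l
    simp only [this, mul_zero, Finset.sum_const_zero]
  have hwd : Differentiable ℂ w := by
    rw [differentiable_pi]
    intro l
    exact ((differentiable_pi.1 hf) (b l)).const_mul _
  have hwq : ∀ z i, aeval (w z) (q i) = 0 := by
    intro z
    rw [pts_rel hm ha hC.hom]
    intro c' hc'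
    rw [← (eqs_iff hc (f z)).1 (hX z) c' hc']
    refine Finset.sum_congr rfl fun j _ => ?_
    rw [h z j, mul_pow, hζ, one_mul]
  obtain ⟨x, hxd, hx⟩ := t_lift n M e v hv he ℂ w hwd (fun z => by
    obtain ⟨x, hx, hwx, -⟩ := lift_pt hC hv he hF (hw0 z) (hwq z)
    exact ⟨x, hx, hwx⟩)
  have hx0 : ∀ z, x z ≠ 0 := by
    intro z h0
    apply hw0 z
    rw [hx z, h0]
    funext l
    unfold ver
    obtain ⟨i, hi⟩ : ∃ i, v l i ≠ 0 := by
      by_contra hcon
      push Not at hcon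
      have h1 := hv.deg l
      rw [Finset.sum_eq_zero fun i _ => hcon i] at h1
      omega
    exact Finset.prod_eq_zero (Finset.mem_univ i) (by rw [Pi.zero_apply, zero_pow hi])
  refine ⟨ζ, x, hζ, hxd, hx0, fun z => hC.back hv he hF (hx0 z) (by
    rw [← hx z]
    exact hwq z), fun z j => ?_⟩
  rw [← hx z]
  exact h z j

/-- the map to projective space -/
noncomputable def phi (hm : 2 ≤ m) (ha : Full m a) (hv : Mon n M e v) (he : 1 ≤ e) {L : Type}
    [Field L] (P : ℙ L (Fin (n + 1) → L)) : ℙ L (Fin (N + 1) → L) :=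
  Projectivization.mk L (lins a (ver v P.rep)) (lins_ne hm ha (ver_ne_zero hv he P.rep_nonzero))

theorem phi_inj (hm : 2 ≤ m) (ha : Full m a) (hv : Mon n M e v) (he : 1 ≤ e) {L : Type}
    [Field L] : Function.Injective
      (phi hm ha hv he : ℙ L (Fin (n + 1) → L) → ℙ L (Fin (N + 1) → L)) := by
  intro P P' h
  unfold phi at h
  rw [Projectivization.mk_eq_mk_iff'] at h
  obtain ⟨c, hc⟩ := h
  have h1 := lins_prop hm ha hc.symm
  obtain ⟨c', hc'⟩ := ver_prop hv he P.rep_nonzero h1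
  rw [← P.mk_rep, ← P'.mk_rep, Projectivization.mk_eq_mk_iff']
  exact ⟨c', hc'.symm⟩

/-- points of `V` give points of `X` -/
theorem phi_mem (hm : 2 ≤ m) (ha : Full m a) (hC : Cut v F q) (hv : Mon n M e v) (he : 1 ≤ e)
    (hF : ∀ i, ∃ d, (F i).IsHomogeneous d) (hc : Submodule.span K (Set.range c) = rel m a q)
    {L : Type} [Field L] [Algebra K L] {P : ℙ L (Fin (n + 1) → L)} (hP : P ∈ projPoints F L) :
    phi hm ha hv he P ∈ projPoints (fun i => diagonal m (c i)) L := by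
  intro i
  unfold phi
  rw [blvp_rep ⟨m, diag_hom _⟩]
  exact (pts_iff hm ha hC hv he hF hc P.rep_nonzero).1 hP i

end pts

/-- finite fibres of the power map -/
theorem fibre_finite {L : Type} [Field L] {N m : ℕ} (hm : 2 ≤ m) (u : Fin (N + 1) → L) :
    {P : ℙ L (Fin (N + 1) → L) | ∃ t : L, t ≠ 0 ∧ ∀ j, P.rep j ^ m = t * u j}.Finite := by
  classical
  by_cases hu : ∃ b, u b ≠ 0
  swap
  · push Not at hu
    convert Set.finite_empty
    ext P
    simp only [Set.mem_ofPred_eq, Set.mem_empty_iff_false, iff_false]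
    rintro ⟨t, -, h⟩
    apply P.rep_nonzero
    funext j
    have h1 := h j
    rw [hu j, mul_zero] at h1
    exact eq_zero_of_pow_eq_zero h1
  obtain ⟨b, hb⟩ := hu
  have hfin : (Set.univ.pi fun j : Fin (N + 1) =>
      ((Polynomial.nthRoots m (u j / u b)).toFinset : Set L)).Finite :=
    Set.Finite.pi fun _ => Finset.finite_toSet _
  refine Set.Finite.of_finite_image (f := fun P : ℙ L (Fin (N + 1) → L) =>
    fun j => P.rep j / P.rep b) (hfin.subset ?_) ?_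
  · rintro _ ⟨P, ⟨t, ht, h⟩, rfl⟩ j _
    rw [Finset.mem_coe, Multiset.mem_toFinset, Polynomial.mem_nthRoots (by omega)]
    simp only
    rw [div_pow, h j, h b, mul_div_mul_left _ _ ht]
  · rintro P ⟨t, ht, h⟩ P' ⟨t', ht', h'⟩ heq
    have hPb : P.rep b ≠ 0 := by
      intro h0
      have h1 := h b
      rw [h0, zero_pow (by omega)] at h1
      exact mul_ne_zero ht hb h1.symm
    have hPb' : P'.rep b ≠ 0 := by
      intro h0
      have h1 := h' b
      rw [h0, zero_pow (by omega)] at h1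
      exact mul_ne_zero ht' hb h1.symm
    rw [← P.mk_rep, ← P'.mk_rep, Projectivization.mk_eq_mk_iff']
    refine ⟨P.rep b / P'.rep b, funext fun j => ?_⟩
    have h1 : P.rep j / P.rep b = P'.rep j / P'.rep b := congrFun heq j
    rw [Pi.smul_apply, smul_eq_mul]
    field_simp at h1 ⊢
    linear_combination -h1

end Pool.Agent.H441.DF
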