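import Pool.Agent.H441.DF.Bin

/-!
Linear functionals on forms which take powers as values on many powers of linear forms.
-/

set_option autoImplicit false

namespace Pool.Agent.H441.DF

open Polynomial

section gen

variable {k K : Type} [Field k] [Field K] [Algebra k K] {r : ℕ}

theorem lin_add_mul (a b : Fin r → ℕ) (n : ℕ) :
    lin k (fun i => a i + n * b i) = lin k a + (n : MvPolynomial (Fin r) k) * lin k b := by
  unfold lin
  rw [Finset.mul_sum, ← Finset.sum_add_distrib]
  refine Finset.sum_congr rfl fun i _ => ?_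
  rw [Nat.cast_add, Nat.cast_mul, add_smul, mul_smul]
  congr 1
  rw [Nat.cast_smul_eq_nsmul, nsmul_eq_mul]

/-- the binomial formula -/
theorem binL (L : MvPolynomial (Fin r) k →ₗ[k] K) (A B G : MvPolynomial (Fin r) k) (d n : ℕ) :
    L ((A + (n : MvPolynomial (Fin r) k) * B) ^ d * G) =
      ∑ j ∈ Finset.range (d + 1), (d.choose j : K) * L (A ^ (d - j) * B ^ j * G) * (n : K) ^ j := by
  rw [add_comm, add_pow, Finset.sum_mul, map_sum]
  refine Finset.sum_congr rfl fun j _ => ?_
  have e : ((n : MvPolynomial (Fin r) k) * B) ^ j * A ^ (d - j) * (d.choose j : MvPolynomial (Fin r) k)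
      * G = (d.choose j * n ^ j) • (A ^ (d - j) * B ^ j * G) := by
    rw [nsmul_eq_mul]
    push_cast
    ring
  rw [e, map_nsmul, nsmul_eq_mul]
  push_cast
  ring

theorem binK (u v w : K) (d n : ℕ) : (u + (n : K) * v) ^ d * w =
    ∑ j ∈ Finset.range (d + 1), (d.choose j : K) * (u ^ (d - j) * v ^ j * w) * (n : K) ^ j := by
  rw [add_comm, add_pow, Finset.sum_mul]
  refine Finset.sum_congr rfl fun j _ => ?_
  ring

/-- the restriction to a pencil -/
noncomputable def hpol (L : MvPolynomial (Fin r) k →ₗ[k] K) (A C : MvPolynomial (Fin r) k) (m : ℕ) :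
    K[X] :=
  ∑ j ∈ Finset.range (m + 1), Polynomial.C ((m.choose j : K) * L (A ^ (m - j) * C ^ j)) * X ^ j

variable (L : MvPolynomial (Fin r) k →ₗ[k] K) (A C : MvPolynomial (Fin r) k) (m : ℕ)

theorem hpol_eval (n : ℕ) : (hpol L A C m).eval (n : K) =
    L ((A + (n : MvPolynomial (Fin r) k) * C) ^ m) := by
  have h1 := binL L A C 1 m n
  simp only [mul_one] at h1
  rw [h1, hpol, eval_finsetSum]
  refine Finset.sum_congr rfl fun j _ => ?_
  rw [eval_mul, eval_C, eval_pow, eval_X]

theorem hpol_coeff {j : ℕ} (hj : j ≤ m) : (hpol L A C m).coeff j =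
    (m.choose j : K) * L (A ^ (m - j) * C ^ j) := by
  rw [hpol, finsetSum_coeff]
  simp only [coeff_C_mul_X_pow]
  rw [Finset.sum_ite_eq, if_pos (Finset.mem_range.2 (by omega))]

theorem hpol_deg : (hpol L A C m).natDegree ≤ m := by
  apply natDegree_sum_le_of_forall_le
  intro j hj
  rw [Finset.mem_range] at hj
  exact (natDegree_C_mul_X_pow_le _ _).trans (by omega)

theorem normal_form [CharZero K] {u v : K}
    (h : hpol L A C m = (Polynomial.C u + Polynomial.C v * X) ^ m) :
    ∀ l ≤ m, L (A ^ (m - l) * C ^ l) = u ^ (m - l) * v ^ l := by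
  refine coeffs_eq _ _ (Finset.range (m + 1)) (by rw [Finset.card_range]; omega) fun n _ => ?_
  have h1 := hpol_eval L A C m n
  have h2 := binL L A C 1 m n
  simp only [mul_one] at h2
  rw [← h2, ← h1, h, eval_pow, eval_add, eval_mul, eval_C, eval_C, eval_X]
  have h3 := binK u v 1 m n
  simp only [mul_one] at h3
  rw [← h3]
  ring

end gen

section step

variable {k K : Type} [Field k] [Field K] [Algebra k K] [CharZero K] {r m : ℕ}
  {E : Subfield K}

/-- the two types of pencils -/
theorem types (hm : 2 ≤ m) (hB : BP E m) (L : MvPolynomial (Fin r) k →ₗ[k] K)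
    (A C : MvPolynomial (Fin r) k) {s : K} (hs : s ≠ 0) (hA : L (A ^ m) = s ^ m)
    (hpow : ∀ t : ℕ, t ≤ 4 * m → ∃ y, y ^ m = L ((A + (t : MvPolynomial (Fin r) k) * C) ^ m)) :
    (∃ e : ℕ → K, (∀ l, e l ∈ E) ∧ ∀ l ≤ m, L (A ^ (m - l) * C ^ l) = s ^ m * e l) ∨
      ∃ w : K, ∀ l ≤ m, L (A ^ (m - l) * C ^ l) = s ^ (m - l) * w ^ l := by
  have h0 : (hpol L A C m).coeff 0 = s ^ m := by
    rw [hpol_coeff L A C m (Nat.zero_le m)]
    simp [hA]
  rcases dich hm hB (hpol L A C m) (hpol_deg L A C m) (fun c hc => by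
    rw [hpol_eval]
    exact hpow c hc) with ⟨u, hu, h⟩ | ⟨u, v, h⟩
  · left
    choose e he heu using h
    have hsm : s ^ m ≠ 0 := pow_ne_zero _ hs
    have he0 : s ^ m = u * e 0 := by rw [← h0, heu]
    have he00 : e 0 ≠ 0 := by
      intro h1
      rw [h1, mul_zero] at he0
      exact hsm he0
    refine ⟨fun l => e l / e 0 / (m.choose l : K), fun l =>
      E.div_mem (E.div_mem (he l) (he 0)) (natCast_mem E _), fun l hl => ?_⟩
    have h2 : (m.choose l : K) ≠ 0 := by exact_mod_cast (Nat.choose_pos hl).ne'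
    have h3 := heu l
    rw [hpol_coeff L A C m hl] at h3
    rw [he0]
    field_simp
    linear_combination h3
  · right
    have h1 := normal_form L A C m h
    have hus : u ^ m = s ^ m := by
      have h2 := h1 0 (Nat.zero_le m)
      simp only [Nat.sub_zero, pow_zero, mul_one] at h2
      rw [← h2, hA]
    have hu : u ≠ 0 := by
      rintro rfl
      rw [zero_pow (by omega)] at hus
      exact pow_ne_zero m hs hus.symm
    refine ⟨v * s / u, fun l hl => ?_⟩
    rw [h1 l hl, div_pow, mul_pow]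
    have h3 : s ^ (m - l) * s ^ l = u ^ (m - l) * u ^ l := by
      rw [← pow_add, ← pow_add, Nat.sub_add_cancel hl, hus]
    have hul : u ^ l ≠ 0 := pow_ne_zero _ hu
    field_simp
    linear_combination (-v ^ l) * h3

omit [CharZero K] in
theorem ne_zero_of {u v : K} (hv : v ≠ 0) (hτ : u / v ∉ E) (n : ℕ) :
    u + (n : K) * v ≠ 0 := by
  intro h
  apply hτ
  have : u / v = -(n : K) := by
    field_simp
    linear_combination h
  rw [this]
  exact E.neg_mem (natCast_mem E n)

theorem ratio_not (hm : 2 ≤ m) (hB : BP E m) {u v : K} (hv : v ≠ 0) (hτ : u / v ∉ E) {n n' : ℕ}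
    (hn : n ≠ n') {e e' : K} (he : e ∈ E) (he' : e' ∈ E) (h0 : (u + (n : K) * v) ^ m * e ≠ 0)
    (h : (u + (n : K) * v) ^ m * e = (u + (n' : K) * v) ^ m * e') : False := by
  have hs := ne_zero_of hv hτ n
  have hs' := ne_zero_of hv hτ n'
  have he0 : e ≠ 0 := by
    rintro rfl
    rw [mul_zero] at h0
    exact h0 rfl
  set ρ := (u + (n : K) * v) / (u + (n' : K) * v) with hρ
  have h1 : ρ ^ m = e' / e := by
    rw [hρ, div_pow, div_eq_div_iff (pow_ne_zero m hs') he0]
    linear_combination h
  have h2 : ρ ∈ E := by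
    apply hB.closed
    have h3 : ρ ^ m ∈ E := by rw [h1]; exact E.div_mem he' he
    exact IsAlgebraic.of_pow (by omega) (isAlgebraic_algebraMap (⟨_, h3⟩ : E))
  have h3 : u * (1 - ρ) = v * (ρ * n' - n) := by
    have : ρ * (u + (n' : K) * v) = u + (n : K) * v := by
      rw [hρ, div_mul_cancel₀ _ hs']
    linear_combination -this
  by_cases hρ1 : ρ = 1
  · rw [hρ1, sub_self, mul_zero, one_mul] at h3
    have h4 := (mul_eq_zero.1 h3.symm).resolve_left hv
    exact hn (by exact_mod_cast (sub_eq_zero.1 h4).symm)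
  · apply hτ
    have h4 : (1 - ρ) ≠ 0 := sub_ne_zero.2 (Ne.symm hρ1)
    have h5 : u / v = (ρ * n' - n) / (1 - ρ) := by
      field_simp
      linear_combination h3
    rw [h5]
    exact E.div_mem (E.sub_mem (E.mul_mem h2 (natCast_mem E _)) (natCast_mem E _))
      (E.sub_mem E.one_mem h2)

/-- powers of `τ + n` are linearly independent over `E` -/
theorem indep (hB : BP E m) {τ : K} (hτ : τ ∉ E) (g : ℕ → K) (hg : ∀ i, g i ∈ E)
    (h : ∑ n ∈ Finset.range (m + 1), g n * (τ + (n : K)) ^ m = 0) : ∀ n ≤ m, g n = 0 := by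
  have htr : Transcendental E τ := fun h => hτ (hB.closed τ h)
  let g' : ℕ → E := fun n => ⟨g n, hg n⟩
  have h1 : (∑ n ∈ Finset.range (m + 1), Polynomial.C (g' n) *
      (Polynomial.X + Polynomial.C (n : E)) ^ m : E[X]) = 0 := by
    rw [transcendental_iff] at htr
    apply htr
    rw [map_sum, ← h]
    refine Finset.sum_congr rfl fun n _ => ?_
    simp only [map_mul, map_pow, map_add, aeval_C, aeval_X]
    rfl
  have h2 : ∀ i ≤ m, ∑ n ∈ Finset.range (m + 1), g' n * (n : E) ^ i = 0 := by
    intro i hi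
    have h3 := congrArg (fun p => Polynomial.coeff p (m - i)) h1
    simp only [finsetSum_coeff, coeff_C_mul, coeff_zero] at h3
    have h4 : ∀ n : ℕ, ((Polynomial.X + Polynomial.C (n : E)) ^ m).coeff (m - i) =
        (n : E) ^ i * (m.choose (m - i) : E) := by
      intro n
      rw [coeff_X_add_C_pow, Nat.sub_sub_self hi]
    simp only [h4] at h3
    have h5 : (m.choose (m - i) : E) ≠ 0 := by
      have : 0 < m.choose (m - i) := Nat.choose_pos (by omega)
      exact_mod_cast this.ne'
    have h6 : (∑ n ∈ Finset.range (m + 1), g' n * (n : E) ^ i) * (m.choose (m - i) : E) = 0 := by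
      rw [Finset.sum_mul, ← h3]
      refine Finset.sum_congr rfl fun n _ => ?_
      ring
    exact (mul_eq_zero.1 h6).resolve_right h5
  have h3 : (fun j : Fin (m + 1) => g' j) = 0 := by
    refine Matrix.eq_zero_of_forall_pow_sum_mul_pow_eq_zero (f := fun j : Fin (m + 1) => ((j : ℕ) : E))
      ?_ ?_
    · intro i j hij
      have hij' : ((i : ℕ) : E) = ((j : ℕ) : E) := hij
      exact Fin.ext (by exact_mod_cast hij')
    · intro i
      have := h2 i (by omega)
      rw [Finset.sum_range] at this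
      exact this
  intro n hn
  have h4 := congrFun h3 ⟨n, by omega⟩
  exact congrArg (fun x : E => (x : K)) h4

end step

end Pool.Agent.H441.DF
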