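import Pool.Agent.H441.DF.Span

/-!
Binary forms whose values are powers.
-/

set_option autoImplicit false

namespace Pool.Agent.H441.DF

open Polynomial

variable {K : Type} [Field K]

/-- The pair `K / E` has the Büchi property for the exponent `m`: `E` is algebraically closed in `K`
and polynomials of degree at most `m` that take sufficiently many powers as values and are not
divisible by the `m`-th power of an irreducible polynomial are proportional to polynomials over
`E`. -/
structure BP (E : Subfield K) (m : ℕ) : Prop where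
  closed : ∀ x : K, IsAlgebraic E x → x ∈ E
  power : ∀ h : K[X], h ≠ 0 → h.natDegree ≤ m → (∀ c : ℕ, c ≤ 4 * m → ∃ y, y ^ m = h.eval (c : K)) →
    (∀ p : K[X], Irreducible p → ¬ p ^ m ∣ h) → ∃ u : K, u ≠ 0 ∧ ∀ i, ∃ e ∈ E, h.coeff i = u * e

variable {E : Subfield K} {m : ℕ}

/-- the dichotomy -/
theorem dich [CharZero K] (hm : 2 ≤ m) (hB : BP E m) (h : K[X]) (hdeg : h.natDegree ≤ m)
    (hpow : ∀ c : ℕ, c ≤ 4 * m → ∃ y, y ^ m = h.eval (c : K)) :
    (∃ u : K, u ≠ 0 ∧ ∀ i, ∃ e ∈ E, h.coeff i = u * e) ∨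
      ∃ u v : K, h = (C u + C v * X) ^ m := by
  by_cases h0 : h = 0
  · left
    refine ⟨1, one_ne_zero, fun i => ⟨0, E.zero_mem, ?_⟩⟩
    rw [h0, coeff_zero, mul_zero]
  by_cases hp : ∀ p : K[X], Irreducible p → ¬ p ^ m ∣ h
  · exact Or.inl (hB.power h h0 hdeg hpow hp)
  right
  push Not at hp
  obtain ⟨p, hp, q, hq⟩ := hp
  have hq0 : q ≠ 0 := by
    rintro rfl
    rw [mul_zero] at hq
    exact h0 hq
  have hd : h.natDegree = m * p.natDegree + q.natDegree := by
    rw [hq, natDegree_mul (pow_ne_zero _ hp.ne_zero) hq0, natDegree_pow]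
  have hp1 := hp.natDegree_pos
  have hp2 : p.natDegree = 1 := by
    by_contra hne
    have h3 : 2 ≤ p.natDegree := by omega
    have h4 : m * 2 ≤ m * p.natDegree := Nat.mul_le_mul_left m h3
    omega
  have hq2 : q.natDegree = 0 := by
    rw [hp2] at hd
    omega
  obtain ⟨a, b, hab⟩ : ∃ a b : K, p = C a * X + C b :=
    ⟨p.coeff 1, p.coeff 0, eq_X_add_C_of_natDegree_le_one hp2.le⟩
  have ha : a ≠ 0 := by
    rintro rfl
    rw [C_0, zero_mul, zero_add] at hab
    rw [hab, natDegree_C] at hp2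
    exact absurd hp2 (by norm_num)
  obtain ⟨e, he⟩ : ∃ e, q = C e := ⟨q.coeff 0, eq_C_of_natDegree_eq_zero hq2⟩
  -- a point where `p` does not vanish
  obtain ⟨c, hc, hpc⟩ : ∃ c : ℕ, c ≤ 4 * m ∧ p.eval (c : K) ≠ 0 := by
    by_cases h1 : p.eval ((0 : ℕ) : K) = 0
    · refine ⟨1, by omega, fun h2 => ha ?_⟩
      rw [hab] at h1 h2
      simp only [eval_add, eval_mul, eval_C, eval_X, Nat.cast_zero, mul_zero, zero_add,
        Nat.cast_one, mul_one] at h1 h2
      rw [h1, add_zero] at h2
      exact h2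
    · exact ⟨0, by omega, h1⟩
  obtain ⟨y, hy⟩ := hpow c hc
  rw [hq, eval_mul, eval_pow, he, eval_C] at hy
  have hρ : (y / p.eval (c : K)) ^ m = e := by
    rw [div_pow, hy, mul_div_cancel_left₀ _ (pow_ne_zero _ hpc)]
  refine ⟨y / p.eval (c : K) * b, y / p.eval (c : K) * a, ?_⟩
  rw [hq, he, ← hρ, C_pow, ← mul_pow, hab]
  congr 1
  rw [C_mul, C_mul]
  ring

/-- comparison of polynomials in binomial form -/
theorem coeffs_eq [CharZero K] {d : ℕ} (α β : ℕ → K) (T : Finset ℕ) (hT : d < T.card)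
    (h : ∀ k ∈ T, ∑ j ∈ Finset.range (d + 1), (d.choose j : K) * α j * (k : K) ^ j =
      ∑ j ∈ Finset.range (d + 1), (d.choose j : K) * β j * (k : K) ^ j) :
    ∀ j ≤ d, α j = β j := by
  classical
  let P : K[X] := ∑ j ∈ Finset.range (d + 1), C ((d.choose j : K) * (α j - β j)) * X ^ j
  have hP : P.natDegree ≤ d := by
    apply natDegree_sum_le_of_forall_le
    intro j hj
    rw [Finset.mem_range] at hj
    exact (natDegree_C_mul_X_pow_le _ _).trans (by omega)
  have hP0 : P = 0 := by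
    refine eq_zero_of_natDegree_lt_card_of_eval_eq_zero' P (T.image (fun n : ℕ => (n : K))) ?_ ?_
    · intro x hx
      obtain ⟨k, hk, rfl⟩ := Finset.mem_image.1 hx
      rw [eval_finsetSum]
      have h1 := sub_eq_zero.2 (h k hk)
      rw [← Finset.sum_sub_distrib] at h1
      rw [← h1]
      refine Finset.sum_congr rfl fun j _ => ?_
      rw [eval_mul, eval_C, eval_pow, eval_X]
      ring
    · rw [Finset.card_image_of_injective _ Nat.cast_injective]
      omega
  intro j hj
  have h1 : P.coeff j = 0 := by rw [hP0, coeff_zero]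
  rw [finsetSum_coeff] at h1
  simp only [coeff_C_mul_X_pow] at h1
  rw [Finset.sum_ite_eq, if_pos (Finset.mem_range.2 (by omega))] at h1
  have h2 : (d.choose j : K) ≠ 0 := by exact_mod_cast (Nat.choose_pos hj).ne'
  exact sub_eq_zero.1 ((mul_eq_zero.1 h1).resolve_left h2)

end Pool.Agent.H441.DF
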