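import Pool.Agent.H441.DF.Copy

/-!
Lang's question for projective varieties and for intersections of diagonal hypersurfaces.
-/

set_option autoImplicit false

namespace Pool.Agent.H441.DF

open MvPolynomial Pool.Agent.W603.BP Metric
open Pool.Agent.N254.SQ hiding Extends
open scoped LinearAlgebra.Projectivization

theorem blv_diag {K : Type} [Field K] [NumberField K] (σ : K →+* ℂ) (D : Set K)
    (h1D : (1 : K) ∈ D) (hneg : ∀ x ∈ D, -x ∈ D) (hD : Submodule.span ℚ D = ⊤) {m : ℕ} (hm : 2 ≤ m)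
    (H : ∀ (N k : ℕ) (c : Fin k → Fin (N + 1) → K), (∀ i j, c i j = 0 ∨ c i j ∈ D) → ∀ (κ : Type)
      (G : κ → MvPolynomial (Fin (N + 1)) K), (∀ k, ∃ e, (G k).IsHomogeneous e) →
        ProjectiveBLV σ (fun i => diagonal m (c i)) G)
    (n : ℕ) (ι κ : Type) [Finite ι] (F : ι → MvPolynomial (Fin (n + 1)) K)
    (G : κ → MvPolynomial (Fin (n + 1)) K) (hF : ∀ i, ∃ e, (F i).IsHomogeneous e)
    (hG : ∀ k, ∃ e, (G k).IsHomogeneous e) : ProjectiveBLV σ F G := by
  classical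
  obtain ⟨T, hT, hTG⟩ := reduce (Set.range G)
  have hTh : ∀ p ∈ T, ∃ e, p.IsHomogeneous e := by
    intro p hp
    obtain ⟨k, hk⟩ := hT hp
    rw [← hk]
    exact hG k
  let F' : ι ⊕ T → MvPolynomial (Fin (n + 1)) K :=
    Sum.elim F fun p : T => (p : MvPolynomial (Fin (n + 1)) K)
  have hF' : ∀ i, ∃ d, (F' i).IsHomogeneous d := by
    rintro (i | p)
    · exact hF i
    · exact hTh p.1 p.2
  obtain ⟨e, he, hdF'⟩ := deg_bound F' hF'
  have hdF : ∀ i, ∃ d ≤ e, (F i).IsHomogeneous d := fun i => hdF' (Sum.inl i)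
  obtain ⟨M, v, hv⟩ := exists_mon n e
  obtain ⟨ι₁, _, q₁, hC₁⟩ := exists_cut hv he F hdF
  obtain ⟨ι₂, _, q₂, hC₂⟩ := exists_cut hv he F' hdF'
  obtain ⟨N, a, k, c, ha, hcD, hc⟩ := rel_small D h1D hneg hD (m := m) q₁
  obtain ⟨κ₁, _, Z₁, hZ₁, hZ₁a, hZ₁b⟩ := zeq hm ha q₁ hC₁.hom
  obtain ⟨κ₂, _, Z₂, hZ₂, hZ₂a, hZ₂b⟩ := zeq hm ha q₂ hC₂.hom
  have h1 := H N k c hcD κ₁ Z₁ fun s => ⟨_, hZ₁ s⟩
  have h2 := H N k c hcD κ₂ Z₂ fun s => ⟨_, hZ₂ s⟩
  -- the points of `V(F)` whose images satisfy the second set of equations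
  have back : ∀ (Ω : Type) [Field Ω] [Algebra K Ω] (x : Fin (n + 1) → Ω), x ≠ 0 →
      (∀ i, aeval x (F i) = 0) → (∀ s, aeval (lins a (ver v x)) (Z₂ s) = 0) →
      ∀ k, aeval x (G k) = 0 := by
    intro Ω _ _ x hx hxF hZ k
    have hX := (eqs_iff hc _).1 ((pts_iff hm ha hC₁ hv he hF hc hx).1 hxF)
    obtain ⟨w, t, hw, ht, hq, h3⟩ := hZ₂b Ω (lins a (ver v x))
      (lins_ne hm ha (ver_ne_zero hv he hx)) (fun c' hc' => hX c' (by
        rw [mem_rel, hc']
        exact Submodule.zero_mem _)) hZ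
    have h4 : ∀ i, aeval (ver v x) (q₂ i) = 0 := by
      rw [pts_rel hm ha hC₂.hom]
      intro c' hc'
      have h5 := (pts_rel hm ha hC₂.hom w).1 hq c' hc'
      have h6 : ∑ j, algebraMap K Ω (c' j) * (∑ l, (a j l : Ω) * ver v x l) ^ m =
          t * ∑ j, algebraMap K Ω (c' j) * (∑ l, (a j l : Ω) * w l) ^ m := by
        rw [Finset.mul_sum]
        refine Finset.sum_congr rfl fun j _ => ?_
        have h7 : (∑ l, (a j l : Ω) * ver v x l) ^ m = t * (∑ l, (a j l : Ω) * w l) ^ m := h3 j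
        rw [h7]
        ring
      rw [h6, h5, mul_zero]
    have h5 := hC₂.back hv he hF' hx h4
    have h6 := hTG Ω (algebraMap K Ω) x (fun p hp => by
      rw [eval_map]
      exact h5 (Sum.inr ⟨p, hp⟩)) (G k) ⟨k, rfl⟩
    rw [eval_map] at h6
    exact h6
  have forth : ∀ (Ω : Type) [Field Ω] [Algebra K Ω] (x : Fin (n + 1) → Ω)
      (y : Fin (N + 1) → Ω) (t : Ω), (∀ i, aeval x (F i) = 0) → (∀ k, aeval x (G k) = 0) →
      (∀ j, y j ^ m = t * lins a (ver v x) j ^ m) → ∀ s, aeval y (Z₂ s) = 0 := by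
    intro Ω _ _ x y t hxF hxG hy
    refine hZ₂a Ω (ver v x) y t (hC₂.fwd Ω x ?_) hy
    rintro (i | p)
    · exact hxF i
    · obtain ⟨k, hk⟩ := hT p.2
      change aeval x (p : MvPolynomial (Fin (n + 1)) K) = 0
      rw [← hk]
      exact hxG k
  let _ : Algebra K ℂ := σ.toAlgebra
  -- the exceptional set
  have hY : ∀ (L : Type) [Field L] [NumberField L] [Algebra K L],
      (projPoints (fun i => diagonal m (c i)) L \ projPoints Z₁ L).Finite := by
    refine h1.1 ?_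
    intro f hf hf0 hfX hE z s
    obtain ⟨ζ, x, hζ, hxd, hx0, hxF, hfx⟩ := entire hm ha hC₁ hv he hF hc σ hf hf0 hfX hE
    refine hZ₁a ℂ (ver v (x z)) (f z) 1 (hC₁.fwd ℂ (x z) (hxF z)) (fun j => ?_) s
    rw [hfx, mul_pow, hζ]
  -- curves
  have hcurves : (∀ f : ℂ → Fin (n + 1) → ℂ, Differentiable ℂ f → (∀ z, f z ≠ 0) →
      (∀ z i, eval₂ σ (f z) (F i) = 0) → (∃ z w, ∀ c : ℂ, f w ≠ c • f z) →
      ∀ z k, eval₂ σ (f z) (G k) = 0) ↔
      (∀ f : ℂ → Fin (N + 1) → ℂ, Differentiable ℂ f → (∀ z, f z ≠ 0) →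
      (∀ z i, eval₂ σ (f z) (diagonal m (c i)) = 0) → (∃ z w, ∀ c : ℂ, f w ≠ c • f z) →
      ∀ z k, eval₂ σ (f z) (Z₂ k) = 0) := by
    constructor
    · intro h f hf hf0 hfX hE z s
      obtain ⟨ζ, x, hζ, hxd, hx0, hxF, hfx⟩ := entire hm ha hC₁ hv he hF hc σ hf hf0 hfX hE
      obtain ⟨z₀, w₀, hnc⟩ := hE
      have h3 := h x hxd hx0 hxF ⟨z₀, w₀, fun b hb => hnc (b ^ e) (funext fun j => by
        rw [hfx, hb, ver_smul hv, lins_smul, Pi.smul_apply, Pi.smul_apply, smul_eq_mul,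
          smul_eq_mul, hfx]
        ring)⟩
      exact forth ℂ (x z) (f z) 1 (hxF z) (h3 z) (fun j => by rw [hfx, mul_pow, hζ]) s
    · rintro h f hf hf0 hfF ⟨z₀, w₀, hnc⟩ z k
      have h4 := h (fun z => lins a (ver v (f z))) (by
          rw [differentiable_pi]
          intro j
          unfold lins
          exact Differentiable.fun_sum fun l _ =>
            ((differentiable_pi.1 (ver_diff hf)) l).const_mul _)
        (fun z => lins_ne hm ha (ver_ne_zero hv he (hf0 z)))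
        (fun z => (pts_iff hm ha hC₁ hv he hF hc (hf0 z)).1 (hfF z))
        ⟨z₀, w₀, fun b hb => by
          have h5 := lins_prop hm ha hb
          obtain ⟨b', hb'⟩ := ver_prop hv he (hf0 w₀) h5
          exact hnc b' hb'⟩
      exact back ℂ (f z) (hf0 z) (hfF z) (h4 z) k
  -- points
  have hpoints : (∀ (L : Type) [Field L] [NumberField L] [Algebra K L],
      (projPoints F L \ projPoints G L).Finite) ↔
      (∀ (L : Type) [Field L] [NumberField L] [Algebra K L],
      (projPoints (fun i => diagonal m (c i)) L \ projPoints Z₂ L).Finite) := by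
    constructor
    · intro h L _ _ _
      refine ((hY L).union ((h L).biUnion fun P' _ =>
        fibre_finite hm (fun j => lins a (ver v P'.rep) j ^ m))).subset ?_
      rintro P ⟨hPX, hPZ⟩
      by_cases hP1 : P ∈ projPoints Z₁ L
      · right
        have hX := (eqs_iff hc _).1 hPX
        obtain ⟨w, t, hw, ht, hq, hyw⟩ := hZ₁b L P.rep P.rep_nonzero (fun c' hc' => hX c' (by
          rw [mem_rel, hc']
          exact Submodule.zero_mem _)) hP1
        obtain ⟨x, a₀, b₀, hxa, hwb, hwc, hxF⟩ := hC₁.inv L w hw hq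
        have hx0 : x ≠ 0 := by
          rintro rfl
          exact zero_ne_one hxa
        have hwx : w = w b₀ • ver v x := funext fun l => hwc l
        obtain ⟨u, hu⟩ := Projectivization.exists_smul_eq_mk_rep L x hx0
        have hu' : (Projectivization.mk L x hx0).rep = (u : L) • x := hu.symm
        rw [Set.mem_iUnion₂]
        refine ⟨Projectivization.mk L x hx0, ⟨fun i => (blvp_rep (hF i) x hx0).2 (hxF i),
          fun hxG => hPZ fun s => ?_⟩, t * (w b₀) ^ m * ((u : L)⁻¹ ^ e) ^ m, ?_, fun j => ?_⟩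
        · refine forth L x P.rep (t * (w b₀) ^ m) hxF
            (fun k => (blvp_rep (hG k) x hx0).1 (hxG k)) (fun j => ?_) s
          rw [hyw j, hwx, lins_smul, Pi.smul_apply, smul_eq_mul, Pi.smul_apply, smul_eq_mul,
            mul_pow]
          have h5 : w b₀ * ver v x b₀ = w b₀ := (hwc b₀).symm
          rw [h5]
          ring
        · exact mul_ne_zero (mul_ne_zero ht (pow_ne_zero _ hwb))
            (pow_ne_zero _ (pow_ne_zero _ (inv_ne_zero u.ne_zero)))
        · have h5 : w b₀ * ver v x b₀ = w b₀ := (hwc b₀).symm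
          rw [hyw j, hwx, lins_smul, Pi.smul_apply, smul_eq_mul, Pi.smul_apply, smul_eq_mul,
            hu', ver_smul hv, lins_smul, Pi.smul_apply, smul_eq_mul, h5, mul_pow, mul_pow]
          have h6 : ((u : L)⁻¹ ^ e) ^ m * ((u : L) ^ e) ^ m = 1 := by
            rw [← mul_pow, ← mul_pow, inv_mul_cancel₀ u.ne_zero, one_pow, one_pow]
          linear_combination (-(t * (w b₀) ^ m * lins a (ver v x) j ^ m)) * h6
      · left
        exact ⟨hPX, hP1⟩
    · intro h L _ _ _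
      refine Set.Finite.of_finite_image ((h L).subset ?_) ((phi_inj hm ha hv he).injOn)
      rintro _ ⟨P, ⟨hPF, hPG⟩, rfl⟩
      refine ⟨phi_mem hm ha hC₁ hv he hF hc hPF, fun hZ => hPG ?_⟩
      refine back L P.rep P.rep_nonzero hPF fun s => ?_
      have h3 := hZ s
      unfold phi at h3
      rwa [blvp_rep ⟨_, hZ₂ s⟩] at h3
  exact hcurves.trans (h2.trans hpoints.symm)

end Pool.Agent.H441.DF
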