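import Pool.Agent.H441.DF.Geo

/-!
Diagonal forms with coefficients in a small set.
-/

set_option autoImplicit false

namespace Pool.Agent.H441.DF

open MvPolynomial
open Pool.Agent.N254.SQ hiding Extends

section

variable {K : Type} [Field K] [CharZero K]

/-- multiples of elements of `K` are sums of elements of `D` -/
theorem sum_of (D : Set K) (hneg : ∀ x ∈ D, -x ∈ D) [Algebra ℚ K]
    (hD : Submodule.span ℚ D = ⊤) (x : K) : ∃ t : ℕ, 0 < t ∧ ∃ l : List K, (∀ y ∈ l, y ∈ D) ∧
      l.sum = (t : K) * x := by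
  have hx : x ∈ Submodule.span ℚ D := by rw [hD]; trivial
  have h1 : ∃ t : ℕ, 0 < t ∧ (t : K) * x ∈ AddSubgroup.closure D := by
    refine Submodule.span_induction (p := fun x _ => ∃ t : ℕ, 0 < t ∧
      (t : K) * x ∈ AddSubgroup.closure D) ?_ ?_ ?_ ?_ hx
    · intro y hy
      exact ⟨1, one_pos, by rw [Nat.cast_one, one_mul]; exact AddSubgroup.subset_closure hy⟩
    · exact ⟨1, one_pos, by rw [mul_zero]; exact AddSubgroup.zero_mem _⟩
    · rintro y z _ _ ⟨t, ht, h⟩ ⟨t', ht', h'⟩
      refine ⟨t * t', Nat.mul_pos ht ht', ?_⟩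
      have e : ((t * t' : ℕ) : K) * (y + z) = t' • ((t : K) * y) + t • ((t' : K) * z) := by
        simp only [nsmul_eq_mul]
        push_cast
        ring
      rw [e]
      exact AddSubgroup.add_mem _ (AddSubgroup.nsmul_mem _ h _) (AddSubgroup.nsmul_mem _ h' _)
    · rintro r y _ ⟨t, ht, h⟩
      refine ⟨r.den * t, Nat.mul_pos r.den_pos ht, ?_⟩
      have hr : (r.den : K) * algebraMap ℚ K r = (r.num : K) := by
        have h1 : (r.den : ℚ) * r = r.num := Rat.den_mul_eq_num r
        have h2 := congrArg (algebraMap ℚ K) h1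
        rw [map_mul, map_natCast, map_intCast] at h2
        exact h2
      have e : ((r.den * t : ℕ) : K) * (r • y) = r.num • ((t : K) * y) := by
        rw [Algebra.smul_def, zsmul_eq_mul, ← hr]
        push_cast
        ring
      rw [e]
      exact AddSubgroup.zsmul_mem _ h _
  obtain ⟨t, ht, h⟩ := h1
  have h2 : (t : K) * x ∈ AddSubmonoid.closure D := by
    have e : (AddSubgroup.closure D).toAddSubmonoid = AddSubmonoid.closure D := by
      rw [AddSubgroup.closure_toAddSubmonoid]
      congr 1
      refine Set.union_eq_self_of_subset_right fun y hy => ?_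
      have := hneg _ hy
      rwa [neg_neg] at this
    rw [← e]
    exact h
  obtain ⟨l, hl, hs⟩ := AddSubmonoid.exists_list_of_mem_closure h2
  exact ⟨t, ht, l, hl, hs⟩

theorem getD_sum (l : List K) (s : ℕ) (hs : l.length ≤ s) :
    ∑ i : Fin s, l.getD i 0 = l.sum := by
  induction l generalizing s with
  | nil => simp
  | cons x l ih =>
    obtain ⟨s', rfl⟩ : ∃ s', s = s' + 1 := ⟨s - 1, by
      rw [List.length_cons] at hs
      omega⟩
    rw [Fin.sum_univ_succ, List.sum_cons]
    rw [List.length_cons] at hs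
    have h1 := ih s' (by omega)
    simp only [Fin.val_zero, List.getD_cons_zero, Fin.val_succ, List.getD_cons_succ]
    rw [h1]

theorem getD_mem (D : Set K) (l : List K) (hl : ∀ y ∈ l, y ∈ D) (i : ℕ) :
    l.getD i 0 = 0 ∨ l.getD i 0 ∈ D := by
  by_cases h : i < l.length
  · right
    rw [List.getD_eq_getElem _ _ h]
    exact hl _ (List.getElem_mem h)
  · left
    rw [List.getD_eq_default _ _ (by omega)]

/-- **Generators of the relations with small coefficients**, after a repetition of the vectors. -/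
theorem rel_fg_small (D : Set K) (h1 : (1 : K) ∈ D) (hneg : ∀ x ∈ D, -x ∈ D) [Algebra ℚ K]
    (hD : Submodule.span ℚ D = ⊤) {M N₀ m : ℕ} (a₀ : Fin (N₀ + 1) → Fin (M + 1) → ℕ) {ι : Type}
    (q : ι → MvPolynomial (Fin (M + 1)) K) :
    ∃ (N : ℕ) (p : Fin (N + 1) → Fin (N₀ + 1)), Function.Surjective p ∧
      ∃ (k : ℕ) (c : Fin k → Fin (N + 1) → K), (∀ i j, c i j = 0 ∨ c i j ∈ D) ∧
        Submodule.span K (Set.range c) = rel m (fun j => a₀ (p j)) q := by
  classical
  obtain ⟨k₀, c₀, hc₀⟩ := rel_fg (m := m) (a := a₀) q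
  choose t ht using fun i j => sum_of D hneg hD (c₀ i j)
  -- a common multiple
  let T : Fin k₀ → ℕ := fun i => ∏ j, t i j
  have hT : ∀ i, 0 < T i := fun i => Finset.prod_pos fun j _ => (ht i j).1
  have hl : ∀ i j, ∃ l : List K, (∀ y ∈ l, y ∈ D) ∧ l.sum = (T i : K) * c₀ i j := by
    intro i j
    obtain ⟨l, hl, hs⟩ := (ht i j).2
    obtain ⟨b, hb⟩ : t i j ∣ T i := Finset.dvd_prod_of_mem _ (Finset.mem_univ j)
    refine ⟨(List.replicate b l).flatten, ?_, ?_⟩
    · intro w hw
      simp only [List.mem_flatten, List.mem_replicate] at hw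
      obtain ⟨l₁, ⟨-, rfl⟩, h⟩ := hw
      exact hl w h
    · rw [List.sum_flatten, List.map_replicate, List.sum_replicate, hs, nsmul_eq_mul, hb]
      push_cast
      ring
  choose l hlD hls using hl
  let s : ℕ := 1 + ∑ i, ∑ j, (l i j).length
  have hs : ∀ i j, (l i j).length ≤ s := by
    intro i j
    have h2 : (l i j).length ≤ ∑ j, (l i j).length :=
      Finset.single_le_sum (f := fun j => (l i j).length) (fun _ _ => Nat.zero_le _)
        (Finset.mem_univ j)
    have h3 : ∑ j, (l i j).length ≤ ∑ i, ∑ j, (l i j).length :=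
      Finset.single_le_sum (f := fun i => ∑ j, (l i j).length) (fun _ _ => Nat.zero_le _)
        (Finset.mem_univ i)
    omega
  obtain ⟨s', hs'⟩ : ∃ s', s = s' + 1 := ⟨∑ i, ∑ j, (l i j).length, by omega⟩
  -- the new index set
  obtain ⟨N, hN⟩ : ∃ N, Fintype.card (Fin (N₀ + 1) × Fin (s' + 1)) = N + 1 := by
    refine ⟨(N₀ + 1) * (s' + 1) - 1, ?_⟩
    rw [Fintype.card_prod, Fintype.card_fin, Fintype.card_fin]
    have : 0 < (N₀ + 1) * (s' + 1) := Nat.mul_pos (Nat.succ_pos _) (Nat.succ_pos _)
    omega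
  let ε : Fin (N + 1) ≃ Fin (N₀ + 1) × Fin (s' + 1) := (Fintype.equivFinOfCardEq hN).symm
  refine ⟨N, fun j => (ε j).1, fun j => ⟨ε.symm (j, 0), by simp⟩, ?_⟩
  set a : Fin (N + 1) → Fin (M + 1) → ℕ := fun j => a₀ (ε j).1 with ha
  -- the generators
  let g : Fin k₀ ⊕ (Fin (N + 1)) → Fin (N + 1) → K := Sum.elim
    (fun i j => (l i (ε j).1).getD (ε j).2 0)
    (fun j => Pi.single j 1 - Pi.single (ε.symm ((ε j).1, 0)) 1)
  -- push forward
  have hpush : ∀ c : Fin (N + 1) → K, comb K m a c =
      comb K m a₀ (fun j₀ => ∑ i : Fin (s' + 1), c (ε.symm (j₀, i))) := by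
    intro c
    rw [comb_apply, comb_apply]
    rw [← ε.symm.sum_comp, Fintype.sum_prod_type]
    refine Finset.sum_congr rfl fun j₀ _ => ?_
    rw [Finset.sum_smul]
    refine Finset.sum_congr rfl fun i _ => ?_
    simp only [ha, Equiv.apply_symm_apply]
  have hspan : Submodule.span K (Set.range g) = rel m a q := by
    apply le_antisymm
    · rw [Submodule.span_le]
      rintro _ ⟨(i | j), rfl⟩
      · change g (Sum.inl i) ∈ rel m a q
        rw [mem_rel, hpush]
        have e : (fun j₀ => ∑ i' : Fin (s' + 1), g (Sum.inl i) (ε.symm (j₀, i'))) =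
            (T i : K) • c₀ i := by
          funext j₀
          rw [Pi.smul_apply, smul_eq_mul, ← hls i j₀, ← getD_sum (l i j₀) (s' + 1) (by
            rw [← hs']
            exact hs i j₀)]
          refine Finset.sum_congr rfl fun i' _ => ?_
          simp only [g, Sum.elim_inl, Equiv.apply_symm_apply]
        rw [e, map_smul]
        exact Submodule.smul_mem _ _ (rel_hom hc₀ i)
      · change g (Sum.inr j) ∈ rel m a q
        rw [mem_rel]
        have e : comb K m a (g (Sum.inr j)) = 0 := by
          simp only [g, Sum.elim_inr]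
          rw [map_sub, sub_eq_zero]
          have h2 : ∀ j, comb K m a (Pi.single j 1) = lin K (a j) ^ m := by
            intro j
            rw [comb_apply, Finset.sum_eq_single j]
            · rw [Pi.single_eq_same, one_smul]
            · intro i _ hij
              rw [Pi.single_eq_of_ne hij, zero_smul]
            · intro h
              exact absurd (Finset.mem_univ j) h
          rw [h2, h2]
          simp only [ha, Equiv.apply_symm_apply]
        rw [e]
        exact Submodule.zero_mem _
    · intro c hc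
      -- the fibre sums
      have h2 : (fun j₀ => ∑ i : Fin (s' + 1), c (ε.symm (j₀, i))) ∈
          Submodule.span K (Set.range c₀) := by
        rw [hc₀, mem_rel, ← hpush]
        exact hc
      rw [Submodule.mem_span_range_iff_exists_fun] at h2
      obtain ⟨lam, hlam⟩ := h2
      -- the difference with the combination of the first generators
      let c' : Fin (N + 1) → K := c - ∑ i, (lam i * (T i : K)⁻¹) • g (Sum.inl i)
      have hc' : ∀ j₀, ∑ i' : Fin (s' + 1), c' (ε.symm (j₀, i')) = 0 := by
        intro j₀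
        have h3 := congrFun hlam j₀
        simp only [Finset.sum_apply, Pi.smul_apply, smul_eq_mul] at h3
        simp only [c', Pi.sub_apply, Finset.sum_apply, Pi.smul_apply, smul_eq_mul,
          Finset.sum_sub_distrib]
        rw [← h3, Finset.sum_comm, sub_eq_zero]
        refine Finset.sum_congr rfl fun i _ => ?_
        rw [← Finset.mul_sum]
        have e : ∑ i' : Fin (s' + 1), g (Sum.inl i) (ε.symm (j₀, i')) = (T i : K) * c₀ i j₀ := by
          rw [← hls i j₀, ← getD_sum (l i j₀) (s' + 1) (by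
            rw [← hs']
            exact hs i j₀)]
          refine Finset.sum_congr rfl fun i' _ => ?_
          simp only [g, Sum.elim_inl, Equiv.apply_symm_apply]
        rw [e]
        have hT0 : (T i : K) ≠ 0 := by exact_mod_cast (hT i).ne'
        field_simp
      have hc'' : c' = ∑ j, c' j • g (Sum.inr j) := by
        funext j₁
        simp only [Finset.sum_apply, Pi.smul_apply, smul_eq_mul, g, Sum.elim_inr, Pi.sub_apply,
          mul_sub, Finset.sum_sub_distrib]
        have e1 : ∑ j, c' j * (Pi.single j 1 : Fin (N + 1) → K) j₁ = c' j₁ := by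
          rw [Finset.sum_eq_single j₁]
          · rw [Pi.single_eq_same, mul_one]
          · intro j _ hj
            rw [Pi.single_eq_of_ne hj.symm, mul_zero]
          · intro h
            exact absurd (Finset.mem_univ j₁) h
        have e2 : ∑ j, c' j * (Pi.single (ε.symm ((ε j).1, 0)) 1 : Fin (N + 1) → K) j₁ = 0 := by
          rw [← ε.symm.sum_comp, Fintype.sum_prod_type]
          refine Finset.sum_eq_zero fun j₀ _ => ?_
          simp only [Equiv.apply_symm_apply]
          rw [← Finset.sum_mul, hc', zero_mul]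
        rw [e1, e2, sub_zero]
      have e : c = c' + ∑ i, (lam i * (T i : K)⁻¹) • g (Sum.inl i) := by
        simp only [c']
        rw [sub_add_cancel]
      rw [e]
      refine Submodule.add_mem _ ?_ ?_
      · rw [hc'']
        exact Submodule.sum_mem _ fun j _ => Submodule.smul_mem _ _
          (Submodule.subset_span ⟨Sum.inr j, rfl⟩)
      · exact Submodule.sum_mem _ fun i _ => Submodule.smul_mem _ _
          (Submodule.subset_span ⟨Sum.inl i, rfl⟩)
  -- reindex
  let δ : Fin (k₀ + (N + 1)) ≃ Fin k₀ ⊕ Fin (N + 1) := finSumFinEquiv.symm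
  have hgD : ∀ u j, g u j = 0 ∨ g u j ∈ D := by
    rintro (i' | j') j
    · exact getD_mem D _ (hlD i' (ε j).1) _
    · change (Pi.single j' 1 - Pi.single (ε.symm ((ε j').1, 0)) 1 : Fin (N + 1) → K) j = 0 ∨
        (Pi.single j' 1 - Pi.single (ε.symm ((ε j').1, 0)) 1 : Fin (N + 1) → K) j ∈ D
      rw [Pi.sub_apply]
      by_cases h2 : j = j'
      · subst h2
        by_cases h3 : j = ε.symm ((ε j).1, 0)
        · left
          rw [← h3, sub_self]
        · right
          rw [Pi.single_eq_same, Pi.single_eq_of_ne h3, sub_zero]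
          exact h1
      · rw [Pi.single_eq_of_ne h2]
        by_cases h3 : j = ε.symm ((ε j').1, 0)
        · right
          rw [← h3, Pi.single_eq_same, zero_sub]
          exact hneg _ h1
        · left
          rw [Pi.single_eq_of_ne h3, sub_zero]
  refine ⟨k₀ + (N + 1), fun i => g (δ i), fun i j => hgD _ _, ?_⟩
  · rw [← hspan]
    congr 1
    ext x
    constructor
    · rintro ⟨i, rfl⟩
      exact ⟨δ i, rfl⟩
    · rintro ⟨i, rfl⟩
      exact ⟨δ.symm i, by simp⟩

/-- a full list with generators with small coefficients -/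
theorem rel_small (D : Set K) (h1 : (1 : K) ∈ D) (hneg : ∀ x ∈ D, -x ∈ D) [Algebra ℚ K]
    (hD : Submodule.span ℚ D = ⊤) {M m : ℕ} {ι : Type} (q : ι → MvPolynomial (Fin (M + 1)) K) :
    ∃ (N : ℕ) (a : Fin (N + 1) → Fin (M + 1) → ℕ) (k : ℕ) (c : Fin k → Fin (N + 1) → K),
      Full m a ∧ (∀ i j, c i j = 0 ∨ c i j ∈ D) ∧ Submodule.span K (Set.range c) = rel m a q := by
  obtain ⟨N₀, a₀, -, ha'⟩ := exists_full M m
  obtain ⟨N, p, hp, k, c, hcD, hc⟩ := rel_fg_small D h1 hneg hD (m := m) a₀ q
  refine ⟨N, fun j => a₀ (p j), k, c, ?_, hcD, hc⟩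
  intro b hb
  obtain ⟨j₀, hj₀⟩ := full_of ha' b hb
  obtain ⟨j, hj⟩ := hp j₀
  refine ⟨j, ?_⟩
  change a₀ (p j) = b
  rw [hj, hj₀]

end

/-- a common bound for the degrees -/
theorem deg_bound {K : Type} [Field K] {n : ℕ} {ι : Type} [Finite ι]
    (F : ι → MvPolynomial (Fin (n + 1)) K) (hF : ∀ i, ∃ d, (F i).IsHomogeneous d) :
    ∃ e, 1 ≤ e ∧ ∀ i, ∃ d ≤ e, (F i).IsHomogeneous d := by
  have := Fintype.ofFinite ι
  choose eF heF using hF
  exact ⟨max 1 (Finset.univ.sup eF), le_max_left _ _, fun i => ⟨eF i,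
    (Finset.le_sup (f := eF) (Finset.mem_univ i)).trans (le_max_right _ _), heF i⟩⟩

end Pool.Agent.H441.DF
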