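import Pool.Agent.H441.DF.Rel
import Pool.Graph.R_seed8.Y190.AN.Pic

/-!
Holomorphic maps from the punctured disc to intersections of diagonal hypersurfaces.
-/

set_option autoImplicit false

open Filter Topology Set Metric

namespace Pool.Agent.H441.DF

open Pool.Agent.Y190.AN Pool.Agent.W603.BP Pool.Agent.H159R3.GGLLog Pool.Agent.W602.GT

section minf

variable {r0 : ℝ} {hr0 : 0 < r0}

theorem BP_Minf {m : ℕ} (hm : 2 ≤ m) : BP (Minf r0 hr0).toSubfield m where
  closed := fun x hx => Minf_closed hx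
  power := by
    intro h h0 hdeg hpow hmult
    obtain ⟨u, H', hu, hH⟩ := pow_Minf (r0 := r0) (hr0 := hr0) (n := m) (m := m) (N := 4 * m) hm
      (by omega) (fun i => ((i : ℕ) : ℂ)) (fun i j hij => Fin.ext (by
        have hij' : ((i : ℕ) : ℂ) = ((j : ℕ) : ℂ) := hij
        exact_mod_cast hij')) h h0
      hdeg (fun i => by
        obtain ⟨y, hy⟩ := hpow i (by omega)
        refine ⟨y, ?_⟩
        rw [hy, map_natCast]) hmult
    refine ⟨u, hu, fun i => ⟨(H'.coeff i : MK (exD r0 hr0)), (H'.coeff i).2, ?_⟩⟩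
    rw [hH, Polynomial.coeff_C_mul, Polynomial.coeff_map]
    rfl

end minf

/-- roots of unity are constants -/
theorem root_const {k : Type} [Field k] [IsAlgClosed k] {K : Type} [Field K] [Algebra k K] {m : ℕ}
    (hm : m ≠ 0) {ζ : K} (h : ζ ^ m = 1) : ∃ c : k, c ^ m = 1 ∧ algebraMap k K c = ζ := by
  have h1 : IsIntegral k ζ := by
    apply IsIntegral.of_pow (n := m) (Nat.pos_of_ne_zero hm)
    rw [h]
    exact isIntegral_one
  have hq : (minpoly k ζ).leadingCoeff = 1 := minpoly.monic h1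
  have hd : (minpoly k ζ).degree = 1 :=
    IsAlgClosed.degree_eq_one_of_irreducible k (minpoly.irreducible h1)
  have h2 : Polynomial.aeval ζ (minpoly k ζ) = 0 := minpoly.aeval k ζ
  rw [Polynomial.eq_X_add_C_of_degree_eq_one hd, hq, Polynomial.C_1, one_mul, Polynomial.aeval_add,
    Polynomial.aeval_X, Polynomial.aeval_C, add_eq_zero_iff_eq_neg, ← map_neg] at h2
  refine ⟨_, ?_, h2.symm⟩
  apply (algebraMap k K).injective
  rw [map_pow, ← h2, h, map_one]

section curve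

variable {N : ℕ} {f : ℂ → Fin (N + 1) → ℂ}

theorem pcurve_of (hf : DifferentiableOn ℂ f (ball 0 1 \ {0}))
    (hf0 : ∀ z ∈ ball (0 : ℂ) 1 \ {0}, f z ≠ 0) :
    PCurve ∅ (fun e : Empty => (e.elim : MvPolynomial (Fin (N + 1)) ℂ)) f :=
  ⟨hf, fun z hz => ⟨hf0 z hz, fun j hj => absurd hj (Set.notMem_empty j), fun e => e.elim⟩⟩

variable (hM : ∀ i, MeromorphicOn (fun z => f z⁻¹ i) (exD 1 one_pos).U)

theorem val_of (G : MvPolynomial (Fin (N + 1)) ℂ)
    (h : ∀ z ∈ ball (0 : ℂ) 1 \ {0}, MvPolynomial.eval (f z) G = 0) :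
    val (fun i => cl _ (hM i)) G = 0 := by
  rw [val_cl G hM (eval_mero G hM), cl_eq_zero]
  intro v hv
  have h1 : ∀ᶠ w in 𝓝 v, w ∈ Ext 1 := (Ext_open 1).mem_nhds hv
  filter_upwards [nhdsWithin_le_nhds h1] with w hw
  have hw1 : 1 < ‖w‖ := hw
  have hw0 : w ≠ 0 := by
    rintro rfl
    rw [norm_zero] at hw1
    linarith
  exact h w⁻¹ (mem_disc.2 ⟨inv_ne_zero hw0, by
    rw [norm_inv]; exact inv_lt_one_of_one_lt₀ hw1⟩)

theorem of_val (hf : DifferentiableOn ℂ f (ball 0 1 \ {0}))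
    (hf0 : ∀ z ∈ ball (0 : ℂ) 1 \ {0}, f z ≠ 0) (G : MvPolynomial (Fin (N + 1)) ℂ)
    (h : val (fun i => cl _ (hM i)) G = 0) :
    ∀ z ∈ ball (0 : ℂ) 1 \ {0}, MvPolynomial.eval (f z) G = 0 := by
  intro z hz
  have hzP : z ∈ PB 1 := mem_disc.1 hz
  rw [val_cl G hM (eval_mero G hM), cl_eq_zero] at h
  have h2 := h z⁻¹ (inv_mem_ext hzP)
  have h3 : AnalyticAt ℂ (fun v => MvPolynomial.eval (fun i => f v⁻¹ i) G) z⁻¹ := by
    simp only [MvPolynomial.eval_eq']
    apply Finset.analyticAt_fun_sum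
    intro α _
    apply AnalyticAt.fun_mul analyticAt_const
    apply Finset.analyticAt_fun_prod
    intro j _
    exact (coord_an (pcurve_of hf hf0) j z⁻¹ (inv_mem_ext hzP)).fun_pow _
  have h4 := (h3.frequently_zero_iff_eventually_zero.1 h2.frequently).self_of_nhds
  rw [inv_inv] at h4
  exact h4

end curve

/-- **The structure of the holomorphic maps from the punctured disc.** -/
theorem pcurve_rel {K : Type} [Field K] [CharZero K] (σ : K →+* ℂ) {M N m : ℕ}
    {a : Fin (N + 1) → Fin (M + 1) → ℕ} (hm : 2 ≤ m) (ha : Full m a) {ι : Type}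
    (q : ι → MvPolynomial (Fin (M + 1)) K) {f : ℂ → Fin (N + 1) → ℂ}
    (hf : DifferentiableOn ℂ f (ball 0 1 \ {0})) (hf0 : ∀ z ∈ ball (0 : ℂ) 1 \ {0}, f z ≠ 0)
    (hrel : ∀ z ∈ ball (0 : ℂ) 1 \ {0}, ∀ c ∈ rel m a q, ∑ j, σ (c j) * f z j ^ m = 0)
    (hE : ¬ Extends f) : ∃ (ζ : Fin (N + 1) → ℂ) (b : Fin (M + 1) → Fin (N + 1)),
      (∀ j, ζ j ^ m = 1) ∧ ∀ z ∈ ball (0 : ℂ) 1 \ {0}, ∀ j,
        f z j = ζ j * ∑ l, (a j l : ℂ) * ((ζ (b l))⁻¹ * f z (b l)) := by
  classical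
  have hPC := pcurve_of hf hf0
  have hM : ∀ i, MeromorphicOn (fun z => f z⁻¹ i) (exD 1 one_pos).U := fun i z hz =>
    (coord_an hPC i z hz).meromorphicAt
  set y : Fin (N + 1) → MK (exD 1 one_pos) := fun i => cl _ (hM i) with hy
  let _ : Algebra K (MK (exD 1 one_pos)) := ((algebraMap ℂ (MK (exD 1 one_pos))).comp σ).toAlgebra
  have hmap : ∀ x : K, algebraMap K (MK (exD 1 one_pos)) x =
      algebraMap ℂ (MK (exD 1 one_pos)) (σ x) := fun x => rfl
  have hyrel : ∀ c ∈ rel m a q, ∑ j, algebraMap K (MK (exD 1 one_pos)) (c j) * y j ^ m = 0 := by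
    intro c hc
    have h1 := val_of hM (∑ j, MvPolynomial.C (σ (c j)) * MvPolynomial.X j ^ m) (fun z hz => by
      have h2 := hrel z hz c hc
      simpa using h2)
    unfold val at h1
    rw [map_sum] at h1
    rw [← h1]
    refine Finset.sum_congr rfl fun j _ => ?_
    rw [map_mul, map_pow, MvPolynomial.aeval_C, MvPolynomial.aeval_X, hmap]
  rcases main_rel hm ha (BP_Minf (r0 := 1) (hr0 := one_pos) hm) (fun x => by
    rw [hmap]
    exact (Minf 1 one_pos).algebraMap_mem _) hyrel with h | ⟨w, hw⟩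
  · exact absurd (extends_of_minf hPC hM fun i j _ => h i j) hE
  -- the roots of unity
  have hζ : ∀ j, ∃ c : ℂ, c ^ m = 1 ∧ y j = algebraMap ℂ (MK (exD 1 one_pos)) c *
      ∑ l, (a j l : MK (exD 1 one_pos)) * w l := by
    intro j
    by_cases h0 : ∑ l, (a j l : MK (exD 1 one_pos)) * w l = 0
    · refine ⟨1, one_pow _, ?_⟩
      have h1 := hw j
      rw [h0, zero_pow (by omega)] at h1
      rw [h0, mul_zero]
      exact eq_zero_of_pow_eq_zero h1
    · obtain ⟨c, hc, hcζ⟩ := root_const (k := ℂ) (m := m) (by omega)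
        (ζ := y j / ∑ l, (a j l : MK (exD 1 one_pos)) * w l) (by
          rw [div_pow, hw j, div_self (pow_ne_zero _ h0)])
      refine ⟨c, hc, ?_⟩
      rw [hcζ, div_mul_cancel₀ _ h0]
  choose ζ hζm hζ using hζ
  have hζ0 : ∀ j, ζ j ≠ 0 := by
    intro j h0
    have := hζm j
    rw [h0, zero_pow (by omega)] at this
    exact zero_ne_one this
  -- the unit vectors
  have hb : ∀ l : Fin (M + 1), ∃ j, a j = Pi.single l 1 := by
    intro l
    apply ha
    intro i
    by_cases hi : i = l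
    · subst hi
      rw [Pi.single_eq_same]
      exact one_le_bound hm
    · rw [Pi.single_eq_of_ne hi]
      exact Nat.zero_le _
  choose b hb using hb
  have hwb : ∀ l, w l = algebraMap ℂ (MK (exD 1 one_pos)) (ζ (b l))⁻¹ * y (b l) := by
    intro l
    have h1 : ∑ l', (a (b l) l' : MK (exD 1 one_pos)) * w l' = w l := by
      rw [hb l, Finset.sum_eq_single l]
      · rw [Pi.single_eq_same, Nat.cast_one, one_mul]
      · intro l' _ hl'
        rw [Pi.single_eq_of_ne hl', Nat.cast_zero, zero_mul]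
      · intro h
        exact absurd (Finset.mem_univ l) h
    rw [hζ (b l), h1, ← mul_assoc, ← map_mul, inv_mul_cancel₀ (hζ0 _), map_one, one_mul]
  refine ⟨ζ, b, hζm, fun z hz j => ?_⟩
  have h1 := of_val hM hf hf0 (MvPolynomial.X j - MvPolynomial.C (ζ j) *
    ∑ l, MvPolynomial.C (a j l : ℂ) * (MvPolynomial.C (ζ (b l))⁻¹ * MvPolynomial.X (b l))) (by
      have h2 := hζ j
      unfold val
      rw [map_sub, map_mul, map_sum, MvPolynomial.aeval_X, MvPolynomial.aeval_C, sub_eq_zero]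
      change y j = _
      rw [h2]
      congr 1
      refine Finset.sum_congr rfl fun l _ => ?_
      rw [map_mul, map_mul, MvPolynomial.aeval_C, MvPolynomial.aeval_C, MvPolynomial.aeval_X,
        map_natCast]
      change _ = _ * (_ * y (b l))
      rw [hwb l]) z hz
  rw [map_sub, map_mul, map_sum, MvPolynomial.eval_X, MvPolynomial.eval_C, sub_eq_zero] at h1
  rw [h1]
  congr 1
  refine Finset.sum_congr rfl fun l _ => ?_
  rw [map_mul, map_mul, MvPolynomial.eval_C, MvPolynomial.eval_C, MvPolynomial.eval_X]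

/-- **The structure of the entire curves.** -/
theorem ecurve_rel {K : Type} [Field K] [CharZero K] (σ : K →+* ℂ) {M N m : ℕ}
    {a : Fin (N + 1) → Fin (M + 1) → ℕ} (hm : 2 ≤ m) (ha : Full m a) {ι : Type}
    (q : ι → MvPolynomial (Fin (M + 1)) K) {f : ℂ → Fin (N + 1) → ℂ}
    (hf : Differentiable ℂ f) (hf0 : ∀ z, f z ≠ 0)
    (hrel : ∀ z, ∀ c ∈ rel m a q, ∑ j, σ (c j) * f z j ^ m = 0)
    (hE : ∃ z w, ∀ c : ℂ, f w ≠ c • f z) : ∃ (ζ : Fin (N + 1) → ℂ) (b : Fin (M + 1) → Fin (N + 1)),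
      (∀ j, ζ j ^ m = 1) ∧ ∀ z, ∀ j,
        f z j = ζ j * ∑ l, (a j l : ℂ) * ((ζ (b l))⁻¹ * f z (b l)) := by
  have hEC : EntireCurve ∅ (fun e : Empty => (e.elim : MvPolynomial (Fin (N + 1)) ℂ)) f :=
    ⟨hf, fun z => ⟨hf0 z, fun j hj => absurd hj (Set.notMem_empty j), fun e => e.elim⟩, by
      obtain ⟨z, w, h⟩ := hE
      exact ⟨w, z, h⟩⟩
  obtain ⟨h1, h2⟩ := sin_curve hEC
  obtain ⟨ζ, b, hζ, h3⟩ := pcurve_rel σ hm ha q h1.1 (fun z _ => hf0 _) (fun z _ => hrel _) h2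
  refine ⟨ζ, b, hζ, fun z j => ?_⟩
  obtain ⟨w, hw, hwz⟩ := sin_point z
  have h4 := h3 w hw j
  rw [hwz] at h4
  exact h4

end Pool.Agent.H441.DF
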