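import Pool.Agent.H441.DF.Blv
import Pool.Graph.R_pool_sql_team_seeded_63374d34.Results.MP_f82ddf_nt.SmoothHypersurfacesSuffice

/-!
Lang's question for projective varieties and for intersections of diagonal hypersurfaces: the
implication from hyperbolicity to finiteness.
-/

set_option autoImplicit false

namespace Pool.Agent.H441.DF

open MvPolynomial Pool.Agent.W603.BP Metric
open Pool.Agent.N254.SQ hiding Extends
open Pool.Agent.Results.MP_f82ddf_nt.SmoothHypersurfacesSuffice (Hyperbolic FinitePoints)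
open scoped LinearAlgebra.Projectivization

section

variable {K : Type} [Field K] [CharZero K] {n M e N m : ℕ} {v : Fin (M + 1) → Fin (n + 1) → ℕ}
  {a : Fin (N + 1) → Fin (M + 1) → ℕ} {ι ι' : Type} {F : ι → MvPolynomial (Fin (n + 1)) K}
  {q : ι' → MvPolynomial (Fin (M + 1)) K} {k : ℕ} {c : Fin k → Fin (N + 1) → K}

theorem hyp_iff (hm : 2 ≤ m) (ha : Full m a) (hC : Cut v F q) (hv : Mon n M e v) (he : 1 ≤ e)
    (hF : ∀ i, ∃ d, (F i).IsHomogeneous d) (hc : Submodule.span K (Set.range c) = rel m a q)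
    (σ : K →+* ℂ) : Hyperbolic σ F ↔ Hyperbolic σ (fun i => diagonal m (c i)) := by
  constructor
  · intro h f hf hf0 hfX
    by_contra hcon
    push Not at hcon
    obtain ⟨ζ, x, hζ, hxd, hx0, hxF, hfx⟩ := entire hm ha hC hv he hF hc σ hf hf0 hfX hcon
    obtain ⟨z₀, w₀, hnc⟩ := hcon
    obtain ⟨b, hb⟩ := h x hxd hx0 hxF z₀ w₀
    refine hnc (b ^ e) (funext fun j => ?_)
    rw [hfx, hb, ver_smul hv, lins_smul, Pi.smul_apply, Pi.smul_apply, smul_eq_mul,
      smul_eq_mul, hfx]
    ring
  · intro h f hf hf0 hfF z w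
    let _ : Algebra K ℂ := σ.toAlgebra
    obtain ⟨b, hb⟩ := h (fun z => lins a (ver v (f z))) (by
        rw [differentiable_pi]
        intro j
        unfold lins
        exact Differentiable.fun_sum fun l _ =>
          ((differentiable_pi.1 (ver_diff hf)) l).const_mul _)
      (fun z => lins_ne hm ha (ver_ne_zero hv he (hf0 z)))
      (fun z => (pts_iff hm ha hC hv he hF hc (hf0 z)).1 (hfF z)) z w
    obtain ⟨b', hb'⟩ := ver_prop hv he (hf0 w) (lins_prop hm ha hb)
    exact ⟨b', hb'⟩

theorem finite_of (hm : 2 ≤ m) (ha : Full m a) (hC : Cut v F q) (hv : Mon n M e v) (he : 1 ≤ e)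
    (hF : ∀ i, ∃ d, (F i).IsHomogeneous d) (hc : Submodule.span K (Set.range c) = rel m a q)
    (h : FinitePoints (fun i => diagonal m (c i))) : FinitePoints F := by
  intro L _ _ _
  refine Set.Finite.of_finite_image ((h L).subset ?_) ((phi_inj hm ha hv he).injOn)
  rintro _ ⟨P, hP, rfl⟩
  exact phi_mem hm ha hC hv he hF hc hP

end

end Pool.Agent.H441.DF
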