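import Pool.Agent.H441.DF.Alg

/-!
The structure of linear functionals on forms which take powers as values on powers of linear forms.
-/

set_option autoImplicit false

namespace Pool.Agent.H441.DF

open Polynomial

variable {k K : Type} [Field k] [Field K] [Algebra k K] [CharZero K] {r m : ℕ}
  {E : Subfield K}

/-- from many values of `n` to all coefficients -/
theorem spread (L : MvPolynomial (Fin r) k →ₗ[k] K) (A B C : MvPolynomial (Fin r) k) {u v w : K}
    (T : Finset ℕ) (hT : m < T.card) (h : ∀ n ∈ T, ∀ l ≤ m,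
      L ((A + (n : MvPolynomial (Fin r) k) * B) ^ (m - l) * C ^ l) =
        (u + (n : K) * v) ^ (m - l) * w ^ l) :
    ∀ i j l, i + j + l = m → L (A ^ i * B ^ j * C ^ l) = u ^ i * v ^ j * w ^ l := by
  intro i j l hijl
  have h1 := coeffs_eq (d := m - l) (fun j => L (A ^ (m - l - j) * B ^ j * C ^ l))
    (fun j => u ^ (m - l - j) * v ^ j * w ^ l) T (by omega) (fun n hn => by
      rw [← binL, ← binK]
      exact h n hn l (by omega)) j (by omega)
  have h2 : m - l - j = i := by omega
  simp only [h2] at h1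
  exact h1

omit [CharZero K] in
/-- differences -/
theorem diff_zero {d : ℕ} (hd : d < m) (P : ℕ → K) :
    ∑ n ∈ Finset.range (m + 1), (((-1 : ℤ) ^ (m - n) * m.choose n : ℤ) : K) *
      ∑ j ∈ Finset.range (d + 1), P j * (n : K) ^ j = 0 := by
  let P' : ℕ → K := fun j => if j < d + 1 then P j else 0
  have h1 := congrFun (fwdDiff_iter_sum_mul_pow_eq_zero (n := m) P') 0
  rw [fwdDiff_iter_eq_sum_shift] at h1
  rw [Pi.zero_apply] at h1
  rw [← h1]
  refine Finset.sum_congr rfl fun n _ => ?_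
  rw [zsmul_eq_mul]
  congr 1
  have e : Finset.range (d + 1) = (Finset.range m).filter (fun j => j < d + 1) := by
    ext j
    simp only [Finset.mem_range, Finset.mem_filter]
    omega
  rw [e, Finset.sum_filter]
  refine Finset.sum_congr rfl fun j _ => ?_
  simp only [P']
  split_ifs
  · simp
  · simp

/-- the third linear form -/
theorem third (hm : 2 ≤ m) (hB : BP E m) (L : MvPolynomial (Fin r) k →ₗ[k] K)
    (A B C : MvPolynomial (Fin r) k) {u v : K} (hv : v ≠ 0) (hτ : u / v ∉ E)
    (hAB : ∀ l ≤ m, L (A ^ (m - l) * B ^ l) = u ^ (m - l) * v ^ l)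
    (hpow : ∀ n : ℕ, n ≤ m ^ 2 + 1 → ∀ t : ℕ, t ≤ 4 * m → ∃ y, y ^ m =
      L ((A + (n : MvPolynomial (Fin r) k) * B + (t : MvPolynomial (Fin r) k) * C) ^ m)) :
    ∃ w : K, ∀ i j l, i + j + l = m → L (A ^ i * B ^ j * C ^ l) = u ^ i * v ^ j * w ^ l := by
  classical
  have hs : ∀ n : ℕ, u + (n : K) * v ≠ 0 := ne_zero_of hv hτ
  have hAn : ∀ n : ℕ, L ((A + (n : MvPolynomial (Fin r) k) * B) ^ m) = (u + (n : K) * v) ^ m := by
    intro n
    have h1 := binL L A B 1 m n
    simp only [mul_one] at h1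
    have h2 := binK u v 1 m n
    simp only [mul_one] at h2
    rw [h1, h2]
    refine Finset.sum_congr rfl fun j hj => ?_
    rw [Finset.mem_range] at hj
    rw [hAB j (by omega)]
  have htyp : ∀ n : ℕ, n ≤ m ^ 2 + 1 →
      (∃ e : ℕ → K, (∀ l, e l ∈ E) ∧ ∀ l ≤ m,
        L ((A + (n : MvPolynomial (Fin r) k) * B) ^ (m - l) * C ^ l) =
          (u + (n : K) * v) ^ m * e l) ∨
      ∃ w : K, ∀ l ≤ m, L ((A + (n : MvPolynomial (Fin r) k) * B) ^ (m - l) * C ^ l) =
        (u + (n : K) * v) ^ (m - l) * w ^ l := fun n hn =>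
    types hm hB L _ C (hs n) (hAn n) (hpow n hn)
  have hC : ∀ n : ℕ, L ((A + (n : MvPolynomial (Fin r) k) * B) ^ (m - m) * C ^ m) = L (C ^ m) := by
    intro n
    rw [Nat.sub_self, pow_zero, one_mul]
  by_cases hL : L (C ^ m) = 0
  · refine ⟨0, ?_⟩
    have hall : ∀ n : ℕ, n ≤ m ^ 2 + 1 → ∃ e : ℕ → K, (∀ l, e l ∈ E) ∧ ∀ l, 1 ≤ l → l ≤ m →
        L ((A + (n : MvPolynomial (Fin r) k) * B) ^ (m - l) * C ^ l) =
          (u + (n : K) * v) ^ m * e l := by
      intro n hn
      rcases htyp n hn with ⟨e, he, h⟩ | ⟨w, h⟩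
      · exact ⟨e, he, fun l _ hl => h l hl⟩
      · refine ⟨fun _ => 0, fun _ => E.zero_mem, fun l hl1 hl => ?_⟩
        have h1 := h m le_rfl
        rw [hC, hL, Nat.sub_self, pow_zero, one_mul] at h1
        have hw : w = 0 := eq_zero_of_pow_eq_zero h1.symm
        rw [h l hl, hw, zero_pow (by omega), mul_zero, mul_zero]
    choose! e he h using hall
    have he0 : ∀ l, 1 ≤ l → l ≤ m → ∀ n ≤ m, e n l = 0 := by
      intro l hl1 hl
      have hmm : m ≤ m ^ 2 := Nat.le_self_pow (by norm_num) m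
      have h1 : ∑ n ∈ Finset.range (m + 1), (((-1 : ℤ) ^ (m - n) * m.choose n : ℤ) : K) *
          ((u + (n : K) * v) ^ m * e n l) = 0 := by
        have h2 := diff_zero (K := K) (m := m) (d := m - l) (by omega)
          (fun j => ((m - l).choose j : K) * L (A ^ (m - l - j) * B ^ j * C ^ l))
        rw [← h2]
        refine Finset.sum_congr rfl fun n hn => ?_
        rw [Finset.mem_range] at hn
        rw [← binL, h n (by omega) l hl1 hl]
      have h3 : ∑ n ∈ Finset.range (m + 1), ((((-1 : ℤ) ^ (m - n) * m.choose n : ℤ) : K) *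
          (if n ≤ m then e n l else 0)) * (u / v + (n : K)) ^ m = 0 := by
        have h4 : v ^ m ≠ 0 := pow_ne_zero _ hv
        have h5 : v ^ m * ∑ n ∈ Finset.range (m + 1), ((((-1 : ℤ) ^ (m - n) * m.choose n : ℤ) : K) *
          (if n ≤ m then e n l else 0)) * (u / v + (n : K)) ^ m = 0 := by
          rw [← h1, Finset.mul_sum]
          refine Finset.sum_congr rfl fun n hn => ?_
          rw [Finset.mem_range] at hn
          rw [if_pos (by omega)]
          have h6 : u + (n : K) * v = v * (u / v + (n : K)) := by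
            field_simp
          rw [h6, mul_pow]
          ring
        exact (mul_eq_zero.1 h5).resolve_left h4
      intro n hn
      have h4 := indep hB hτ (fun n => ((((-1 : ℤ) ^ (m - n) * m.choose n : ℤ) : K) *
          (if n ≤ m then e n l else 0))) (fun n => by
            refine E.mul_mem (intCast_mem E _) ?_
            split_ifs with hn
            · exact he n (by omega) l
            · exact E.zero_mem) h3 n hn
      simp only [if_pos hn] at h4
      refine (mul_eq_zero.1 h4).resolve_left ?_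
      have h5 : (m.choose n : ℤ) ≠ 0 := by exact_mod_cast (Nat.choose_pos hn).ne'
      have h6 : (-1 : ℤ) ^ (m - n) ≠ 0 := pow_ne_zero _ (by norm_num)
      exact_mod_cast mul_ne_zero h6 h5
    refine spread L A B C (Finset.range (m + 1)) (by rw [Finset.card_range]; omega)
      fun n hn l hl => ?_
    rw [Finset.mem_range] at hn
    have hmm : m ≤ m ^ 2 := Nat.le_self_pow (by norm_num) m
    rcases Nat.eq_zero_or_pos l with rfl | hl1
    · simp [hAn]
    · rw [h n (by omega) l hl1 hl, he0 l hl1 hl n (by omega), mul_zero, zero_pow (by omega),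
        mul_zero]
  · -- the values of `n` of the first type
    let R : Finset ℕ := Finset.range (m ^ 2 + 2)
    let T2 : Finset ℕ := R.filter (fun n : ℕ => ∃ w : K, ∀ l ≤ m,
      L ((A + (n : MvPolynomial (Fin r) k) * B) ^ (m - l) * C ^ l) =
        (u + (n : K) * v) ^ (m - l) * w ^ l)
    have h1 : ∀ n n' : ℕ, n ∈ R \ T2 → n' ∈ R \ T2 → n = n' := by
      intro n n' hn hn'
      by_contra hne
      rw [Finset.mem_sdiff] at hn hn'
      have e1 := Finset.mem_range.1 hn.1
      have e2 := Finset.mem_range.1 hn'.1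
      rcases htyp n (by omega) with ⟨e, he, h⟩ | h
      swap
      · exact hn.2 (Finset.mem_filter.2 ⟨hn.1, h⟩)
      rcases htyp n' (by omega) with ⟨e', he', h'⟩ | h'
      swap
      · exact hn'.2 (Finset.mem_filter.2 ⟨hn'.1, h'⟩)
      have h2 := h m le_rfl
      have h3 := h' m le_rfl
      rw [hC] at h2 h3
      exact ratio_not hm hB hv hτ hne (he m) (he' m) (by rw [← h2]; exact hL) (by rw [← h2, ← h3])
    have h2 : (R \ T2).card ≤ 1 := Finset.card_le_one.2 fun n hn n' hn' => h1 n n' hn hn'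
    have h3 : m ^ 2 + 1 ≤ T2.card := by
      have h40 : T2 ⊆ R := Finset.filter_subset _ _
      have h4 := Finset.card_sdiff_add_card_eq_card h40
      have h5 : R.card = m ^ 2 + 2 := Finset.card_range _
      omega
    have hw : ∀ n : ℕ, n ∈ T2 → ∃ w : K, ∀ l ≤ m,
      L ((A + (n : MvPolynomial (Fin r) k) * B) ^ (m - l) * C ^ l) =
        (u + (n : K) * v) ^ (m - l) * w ^ l := fun n hn => (Finset.mem_filter.1 hn).2
    choose! w hw using hw
    let Z : Finset K := (Polynomial.nthRoots m (L (C ^ m))).toFinset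
    have hZ : Z.card ≤ m := (Multiset.toFinset_card_le _).trans (Polynomial.card_nthRoots m _)
    obtain ⟨w0, hw0, hcard⟩ := Finset.exists_lt_card_fiber_of_mul_lt_card_of_maps_to
      (s := T2) (t := Z) (f := w) (n := m) (fun n hn => by
        rw [Multiset.mem_toFinset, Polynomial.mem_nthRoots (by omega)]
        have h4 := hw n hn m le_rfl
        rw [hC, Nat.sub_self, pow_zero, one_mul] at h4
        exact h4.symm) (by nlinarith [Nat.mul_le_mul_right m hZ])
    refine ⟨w0, spread L A B C (T2.filter (fun n => w n = w0)) hcard fun n hn l hl => ?_⟩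
    rw [Finset.mem_filter] at hn
    rw [hw n hn.1 l hl, hn.2]

/-- **Theorem A.** -/
theorem main_alg [CharZero k] (hm : 2 ≤ m) (hB : BP E m) (hkE : ∀ x : k, algebraMap k K x ∈ E)
    (L : MvPolynomial (Fin r) k →ₗ[k] K)
    (hL : ∀ c : Fin r → ℕ, (∀ i, c i ≤ m * (1 + (m ^ 2 + 1) + 4 * m)) →
      ∃ y, y ^ m = L (lin k c ^ m)) :
    (∃ u : K, u ≠ 0 ∧ ∀ F : MvPolynomial (Fin r) k, F.IsHomogeneous m → ∃ e ∈ E, L F = u * e) ∨
      ∃ x : Fin r → K, ∀ F : MvPolynomial (Fin r) k, F.IsHomogeneous m →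
        L F = MvPolynomial.aeval x F := by
  by_cases hcase : ∀ a b : Fin r → ℕ, (∀ i, a i ≤ m) → (∀ i, b i ≤ m) → L (lin k b ^ m) ≠ 0 →
      L (lin k a ^ m) / L (lin k b ^ m) ∈ E
  · left
    obtain ⟨u, hu, h⟩ : ∃ u : K, u ≠ 0 ∧ ∀ a : Fin r → ℕ, (∀ i, a i ≤ m) →
        L (lin k a ^ m) / u ∈ E := by
      by_cases h0 : ∃ b : Fin r → ℕ, (∀ i, b i ≤ m) ∧ L (lin k b ^ m) ≠ 0
      · obtain ⟨b, hb, hb0⟩ := h0
        exact ⟨_, hb0, fun a ha => hcase a b ha hb hb0⟩
      · push Not at h0
        exact ⟨1, one_ne_zero, fun a ha => by rw [h0 a ha, zero_div]; exact E.zero_mem⟩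
    refine ⟨u, hu, fun F hF => ?_⟩
    have h1 : L F / u ∈ E := by
      refine Submodule.span_induction (p := fun G _ => L G / u ∈ E) ?_ ?_ ?_ ?_ (span_pow hF)
      · rintro _ ⟨c, hc, rfl⟩
        exact h c hc
      · rw [map_zero, zero_div]
        exact E.zero_mem
      · intro x y _ _ hx hy
        rw [map_add, add_div]
        exact E.add_mem hx hy
      · intro a x _ hx
        rw [map_smul, Algebra.smul_def, mul_div_assoc]
        exact E.mul_mem (hkE a) hx
    exact ⟨L F / u, h1, by rw [mul_div_cancel₀ _ hu]⟩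
  right
  push Not at hcase
  obtain ⟨a, b, ha, hb, hb0, hab⟩ := hcase
  have hbox : ∀ (c : Fin r → ℕ), (∀ i, c i ≤ m) → ∀ n t : ℕ, n ≤ m ^ 2 + 1 → t ≤ 4 * m →
      ∃ y, y ^ m = L ((lin k a + (n : MvPolynomial (Fin r) k) * lin k b +
        (t : MvPolynomial (Fin r) k) * lin k c) ^ m) := by
    intro c hc n t hn ht
    rw [← lin_add_mul, ← lin_add_mul]
    apply hL
    intro i
    have h1 := ha i
    have h2 := Nat.mul_le_mul hn (hb i)
    have h3 := Nat.mul_le_mul ht (hc i)
    nlinarith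
  -- the pencil of `a` and `b`
  obtain ⟨u, v, huv⟩ : ∃ u v : K, hpol L (lin k a) (lin k b) m =
      (Polynomial.C u + Polynomial.C v * X) ^ m := by
    rcases dich hm hB (hpol L (lin k a) (lin k b) m) (hpol_deg _ _ _ _) (fun c hc => by
      rw [hpol_eval]
      have := hbox b hb 0 c (Nat.zero_le _) hc
      rwa [Nat.cast_zero, zero_mul, add_zero] at this) with ⟨u, hu, h⟩ | h
    · exfalso
      apply hab
      obtain ⟨e0, he0, h0⟩ := h 0
      obtain ⟨em, hem, h1⟩ := h m
      rw [hpol_coeff _ _ _ _ (Nat.zero_le m)] at h0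
      rw [hpol_coeff _ _ _ _ le_rfl] at h1
      simp only [Nat.choose_zero_right, Nat.cast_one, Nat.sub_zero, pow_zero, mul_one, one_mul,
        Nat.choose_self, Nat.sub_self] at h0 h1
      rw [h0, h1, mul_div_mul_left _ _ hu]
      exact E.div_mem he0 hem
    · exact h
  have hAB := normal_form L _ _ m huv
  have hA : L (lin k a ^ m) = u ^ m := by
    have := hAB 0 (Nat.zero_le m)
    simpa using this
  have hBv : L (lin k b ^ m) = v ^ m := by
    have := hAB m le_rfl
    simpa using this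
  have hv : v ≠ 0 := by
    rintro rfl
    rw [hBv, zero_pow (by omega)] at hb0
    exact hb0 rfl
  have hτ : u / v ∉ E := by
    intro h
    apply hab
    rw [hA, hBv, ← div_pow]
    exact E.pow_mem h m
  have hu : u ≠ 0 := by
    rintro rfl
    rw [zero_div] at hτ
    exact hτ E.zero_mem
  have hum : u ^ (m - 1) ≠ 0 := pow_ne_zero _ hu
  refine ⟨fun i => L (lin k a ^ (m - 1) * MvPolynomial.X i) / u ^ (m - 1), fun F hF => ?_⟩
  refine lin_ext (L := L) (L' := (MvPolynomial.aeval fun i =>
    L (lin k a ^ (m - 1) * MvPolynomial.X i) / u ^ (m - 1)).toLinearMap) ?_ hF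
  intro c hc
  obtain ⟨w, hw⟩ := third hm hB L (lin k a) (lin k b) (lin k c) hv hτ hAB
    (fun n hn t ht => hbox c hc n t hn ht)
  have h1 := hw 0 0 m (by omega)
  have h2 := hw (m - 1) 0 1 (by omega)
  simp only [pow_zero, one_mul, mul_one, pow_one] at h1 h2
  have h3 : MvPolynomial.aeval (fun i => L (lin k a ^ (m - 1) * MvPolynomial.X i) / u ^ (m - 1))
      (lin k c) = w := by
    generalize lin k a ^ (m - 1) = A' at h2 ⊢
    have h4 : L (A' * lin k c) = ∑ i, (c i : K) * L (A' * MvPolynomial.X i) := by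
      unfold lin
      rw [Finset.mul_sum, map_sum]
      refine Finset.sum_congr rfl fun i _ => ?_
      rw [mul_smul_comm, map_smul, Algebra.smul_def, map_natCast]
    rw [h2] at h4
    have h5 : w = (∑ i, (c i : K) * L (A' * MvPolynomial.X i)) / u ^ (m - 1) := by
      rw [← h4, mul_div_cancel_left₀ _ hum]
    rw [h5, Finset.sum_div]
    unfold lin
    rw [map_sum]
    refine Finset.sum_congr rfl fun i _ => ?_
    rw [map_smul, MvPolynomial.aeval_X, Algebra.smul_def, map_natCast, mul_div_assoc]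
  rw [AlgHom.toLinearMap_apply, h1]
  rw [← h3, ← map_pow]

end Pool.Agent.H441.DF
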