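import Pool.Agent.H441.DF.Main

/-!
The relations between the powers of linear forms modulo the products of quadratic forms and
monomials.
-/

set_option autoImplicit false

namespace Pool.Agent.H441.DF

open MvPolynomial

/-- the bound for the entries -/
def bound (m : ℕ) : ℕ := m * (1 + (m ^ 2 + 1) + 4 * m)

/-- `a` lists the vectors with entries at most `bound m` -/
def Full {M N : ℕ} (m : ℕ) (a : Fin (N + 1) → Fin (M + 1) → ℕ) : Prop :=
  ∀ c : Fin (M + 1) → ℕ, (∀ i, c i ≤ bound m) → ∃ j, a j = c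

/-- a list of all vectors -/
theorem exists_full (M m : ℕ) : ∃ (N : ℕ) (a : Fin (N + 1) → Fin (M + 1) → ℕ),
    Function.Injective a ∧ Set.range a = {c | ∀ i, c i ≤ bound m} := by
  classical
  let S : Set (Fin (M + 1) → ℕ) := {c | ∀ i, c i ≤ bound m}
  have hS : S.Finite := Set.Finite.pi' (t := fun _ => Set.Iic (bound m)) (fun _ => Set.finite_Iic _)
  have := hS.fintype
  have hne : 0 < Fintype.card S := Fintype.card_pos_iff.2 ⟨⟨0, fun i => Nat.zero_le _⟩⟩
  obtain ⟨N, hN⟩ : ∃ N, Fintype.card S = N + 1 := ⟨Fintype.card S - 1, by omega⟩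
  let e : Fin (N + 1) ≃ S := (Fintype.equivFinOfCardEq hN).symm
  refine ⟨N, fun j => (e j).1, fun i j hij => e.injective (Subtype.ext hij), ?_⟩
  ext c
  constructor
  · rintro ⟨j, rfl⟩
    exact (e j).2
  · intro hc
    exact ⟨e.symm ⟨c, hc⟩, by simp⟩

theorem full_of {M N m : ℕ} {a : Fin (N + 1) → Fin (M + 1) → ℕ}
    (h : Set.range a = {c | ∀ i, c i ≤ bound m}) : Full m a := by
  intro c hc
  have h1 : c ∈ Set.range a := by rw [h]; exact hc
  exact h1

theorem le_bound {m : ℕ} : m ≤ bound m := by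
  unfold bound
  nlinarith

theorem one_le_bound {m : ℕ} (hm : 2 ≤ m) : 1 ≤ bound m := le_trans (by omega) (le_bound (m := m))

section

set_option linter.unusedSectionVars false

variable {K : Type} [Field K] [CharZero K] {M N m : ℕ} {a : Fin (N + 1) → Fin (M + 1) → ℕ}

/-- combinations of powers -/
noncomputable def comb (K : Type) [Field K] (m : ℕ) (a : Fin (N + 1) → Fin (M + 1) → ℕ) :
    (Fin (N + 1) → K) →ₗ[K] MvPolynomial (Fin (M + 1)) K where
  toFun c := ∑ j, c j • lin K (a j) ^ m
  map_add' c c' := by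
    rw [← Finset.sum_add_distrib]
    exact Finset.sum_congr rfl fun j _ => by rw [Pi.add_apply, add_smul]
  map_smul' t c := by
    rw [RingHom.id_apply, Finset.smul_sum]
    exact Finset.sum_congr rfl fun j _ => by rw [Pi.smul_apply, smul_assoc]

theorem comb_apply (c : Fin (N + 1) → K) : comb K m a c = ∑ j, c j • lin K (a j) ^ m := rfl

theorem comb_surj (ha : Full m a) {F : MvPolynomial (Fin (M + 1)) K} (hF : F.IsHomogeneous m) :
    ∃ c, comb K m a c = F := by
  have h1 : F ∈ LinearMap.range (comb K m a) := by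
    refine Submodule.span_le.2 ?_ (span_pow hF)
    rintro _ ⟨c, hc, rfl⟩
    obtain ⟨j, hj⟩ := ha c (fun i => (hc i).trans le_bound)
    refine ⟨Pi.single j 1, ?_⟩
    rw [comb_apply, Finset.sum_eq_single j]
    · rw [Pi.single_eq_same, one_smul, hj]
    · intro i _ hij
      rw [Pi.single_eq_of_ne hij, zero_smul]
    · intro h
      exact absurd (Finset.mem_univ j) h
  exact h1

/-- the value at a point -/
theorem lin_eval {Ω : Type} [Field Ω] [Algebra K Ω] (c : Fin (M + 1) → ℕ) (w : Fin (M + 1) → Ω) :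
    aeval w (lin K c) = ∑ l, (c l : Ω) * w l := by
  unfold lin
  rw [map_sum]
  refine Finset.sum_congr rfl fun l _ => ?_
  rw [map_smul, aeval_X, Algebra.smul_def, map_natCast]

theorem comb_eval {Ω : Type} [Field Ω] [Algebra K Ω] (c : Fin (N + 1) → K)
    (w : Fin (M + 1) → Ω) : aeval w (comb K m a c) =
      ∑ j, algebraMap K Ω (c j) * (∑ l, (a j l : Ω) * w l) ^ m := by
  rw [comb_apply, map_sum]
  refine Finset.sum_congr rfl fun j _ => ?_
  rw [map_smul, map_pow, lin_eval, Algebra.smul_def]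

/-- the products of the quadratic forms with powers of the variables -/
noncomputable def mult {ι : Type} (m : ℕ) (q : ι → MvPolynomial (Fin (M + 1)) K) :
    Submodule K (MvPolynomial (Fin (M + 1)) K) :=
  Submodule.span K {G | ∃ i l, G = q i * X l ^ (m - 2)}

/-- the relations -/
noncomputable def rel {ι : Type} (m : ℕ) (a : Fin (N + 1) → Fin (M + 1) → ℕ)
    (q : ι → MvPolynomial (Fin (M + 1)) K) : Submodule K (Fin (N + 1) → K) :=
  (mult m q).comap (comb K m a)

theorem mem_rel {ι : Type} {q : ι → MvPolynomial (Fin (M + 1)) K} {c : Fin (N + 1) → K} :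
    c ∈ rel m a q ↔ comb K m a c ∈ mult m q := Iff.rfl

theorem rel_fg {ι : Type} (q : ι → MvPolynomial (Fin (M + 1)) K) :
    ∃ (k : ℕ) (c : Fin k → Fin (N + 1) → K), Submodule.span K (Set.range c) = rel m a q :=
  Submodule.fg_iff_exists_fin_generating_family.1 (IsNoetherian.noetherian _)

/-- the equations for the generators imply all the equations -/
theorem all_rel {ι : Type} {q : ι → MvPolynomial (Fin (M + 1)) K} {k : ℕ}
    {c : Fin k → Fin (N + 1) → K} (hc : Submodule.span K (Set.range c) = rel m a q)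
    {Ω : Type} [Field Ω] [Algebra K Ω] {Y : Fin (N + 1) → Ω}
    (h : ∀ i, ∑ j, algebraMap K Ω (c i j) * Y j = 0) :
    ∀ c' ∈ rel m a q, ∑ j, algebraMap K Ω (c' j) * Y j = 0 := by
  intro c' hc'
  rw [← hc] at hc'
  refine Submodule.span_induction (p := fun c' _ => ∑ j, algebraMap K Ω (c' j) * Y j = 0)
    ?_ ?_ ?_ ?_ hc'
  · rintro _ ⟨i, rfl⟩
    exact h i
  · simp
  · intro x y _ _ hx hy
    simp only [Pi.add_apply, map_add, add_mul, Finset.sum_add_distrib, hx, hy, add_zero]
  · intro t x _ hx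
    simp only [Pi.smul_apply, smul_eq_mul, map_mul, mul_assoc, ← Finset.mul_sum, hx, mul_zero]

theorem rel_hom {ι : Type} {q : ι → MvPolynomial (Fin (M + 1)) K} {k : ℕ}
    {c : Fin k → Fin (N + 1) → K} (hc : Submodule.span K (Set.range c) = rel m a q) (i : Fin k) :
    c i ∈ rel m a q := by
  rw [← hc]
  exact Submodule.subset_span ⟨i, rfl⟩

/-- **the points** -/
theorem pts_rel (hm : 2 ≤ m) (ha : Full m a) {ι : Type} {q : ι → MvPolynomial (Fin (M + 1)) K}
    (hq : ∀ i, (q i).IsHomogeneous 2) {Ω : Type} [Field Ω] [Algebra K Ω] (w : Fin (M + 1) → Ω) :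
    (∀ i, aeval w (q i) = 0) ↔
      ∀ c ∈ rel m a q, ∑ j, algebraMap K Ω (c j) * (∑ l, (a j l : Ω) * w l) ^ m = 0 := by
  constructor
  · intro h c hc
    rw [← comb_eval]
    have hc' : comb K m a c ∈ mult m q := hc
    refine Submodule.span_induction (p := fun G _ => aeval w G = 0) ?_ ?_ ?_ ?_ hc'
    · rintro _ ⟨i, l, rfl⟩
      rw [map_mul, h i, zero_mul]
    · exact map_zero _
    · intro x y _ _ hx hy
      rw [map_add, hx, hy, add_zero]
    · intro t x _ hx
      rw [map_smul, hx, smul_zero]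
  · intro h i
    by_cases hw : w = 0
    · rw [hw]
      have h0 : coeff 0 (q i) = 0 := by
        by_contra hne
        have := hq i hne
        rw [map_zero] at this
        exact absurd this (by norm_num)
      change aeval (fun _ => (0 : Ω)) (q i) = 0
      rw [aeval_zero', constantCoeff_eq, h0, map_zero]
    · obtain ⟨l, hl⟩ : ∃ l, w l ≠ 0 := by
        by_contra hcon
        push Not at hcon
        exact hw (funext hcon)
      have hhom : (q i * X l ^ (m - 2)).IsHomogeneous m := by
        have h1 := (hq i).mul ((isHomogeneous_X K l).pow (m - 2))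
        have e : 2 + 1 * (m - 2) = m := by omega
        rwa [e] at h1
      obtain ⟨c, hc⟩ := comb_surj ha hhom
      have h1 := h c (by
        rw [mem_rel, hc]
        exact Submodule.subset_span ⟨i, l, rfl⟩)
      rw [← comb_eval, hc, map_mul, map_pow, aeval_X] at h1
      exact (mul_eq_zero.1 h1).resolve_right (pow_ne_zero _ hl)

/-- the functional -/
theorem exists_fun {Ω : Type} [Field Ω] [Algebra K Ω] {Y : Fin (N + 1) → Ω}
    (h : ∀ c, comb K m a c = 0 → ∑ j, algebraMap K Ω (c j) * Y j = 0) :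
    ∃ L : MvPolynomial (Fin (M + 1)) K →ₗ[K] Ω, ∀ j, L (lin K (a j) ^ m) = Y j := by
  let ψ : (Fin (N + 1) → K) →ₗ[K] Ω :=
    { toFun := fun c => ∑ j, algebraMap K Ω (c j) * Y j
      map_add' := fun c c' => by
        simp only [Pi.add_apply, map_add, add_mul, Finset.sum_add_distrib]
      map_smul' := fun t c => by
        simp only [Pi.smul_apply, smul_eq_mul, map_mul, mul_assoc, ← Finset.mul_sum,
          RingHom.id_apply, Algebra.smul_def] }
  have hker : LinearMap.ker (comb K m a) ≤ LinearMap.ker ψ := by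
    intro c hc
    rw [LinearMap.mem_ker] at hc ⊢
    exact h c hc
  let f : LinearMap.range (comb K m a) →ₗ[K] Ω :=
    ((LinearMap.ker (comb K m a)).liftQ ψ hker).comp
      (comb K m a).quotKerEquivRange.symm.toLinearMap
  obtain ⟨L, hL⟩ := LinearMap.exists_extend f
  have key : ∀ c, L (comb K m a c) = ψ c := by
    intro c
    have h1 := congrArg (fun g => g (⟨comb K m a c, ⟨c, rfl⟩⟩ : LinearMap.range (comb K m a))) hL
    simp only [LinearMap.comp_apply, Submodule.subtype_apply] at h1
    rw [h1]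
    have h2 : (comb K m a).quotKerEquivRange.symm ⟨comb K m a c, ⟨c, rfl⟩⟩ =
        Submodule.Quotient.mk c := by
      rw [LinearEquiv.symm_apply_eq]
      rfl
    change (LinearMap.ker (comb K m a)).liftQ ψ hker
      ((comb K m a).quotKerEquivRange.symm ⟨comb K m a c, ⟨c, rfl⟩⟩) = ψ c
    rw [h2]
    rfl
  refine ⟨L, fun j => ?_⟩
  have h1 := key (Pi.single j 1)
  have e1 : comb K m a (Pi.single j 1) = lin K (a j) ^ m := by
    rw [comb_apply, Finset.sum_eq_single j]
    · rw [Pi.single_eq_same, one_smul]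
    · intro i _ hij
      rw [Pi.single_eq_of_ne hij, zero_smul]
    · intro h
      exact absurd (Finset.mem_univ j) h
  have e2 : ψ (Pi.single j 1) = Y j := by
    change ∑ i, algebraMap K Ω ((Pi.single j 1 : Fin (N + 1) → K) i) * Y i = Y j
    rw [Finset.sum_eq_single j]
    · rw [Pi.single_eq_same, map_one, one_mul]
    · intro i _ hij
      rw [Pi.single_eq_of_ne hij, map_zero, zero_mul]
    · intro h
      exact absurd (Finset.mem_univ j) h
  rw [← e1, h1, e2]

/-- The functional takes values which are powers -/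
theorem main_rel (hm : 2 ≤ m) (ha : Full m a) {ι : Type} {q : ι → MvPolynomial (Fin (M + 1)) K}
    {Ω : Type} [Field Ω] [CharZero Ω] [Algebra K Ω] {E : Subfield Ω} (hB : BP E m)
    (hKE : ∀ x : K, algebraMap K Ω x ∈ E) {y : Fin (N + 1) → Ω}
    (h : ∀ c ∈ rel m a q, ∑ j, algebraMap K Ω (c j) * y j ^ m = 0) :
    (∀ i j, y i / y j ∈ E) ∨ ∃ w : Fin (M + 1) → Ω, ∀ j, y j ^ m = (∑ l, (a j l : Ω) * w l) ^ m := by
  obtain ⟨L, hL⟩ := exists_fun (m := m) (a := a) (Y := fun j => y j ^ m) fun c hc => h c (by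
    rw [mem_rel, hc]
    exact Submodule.zero_mem _)
  rcases main_alg hm hB hKE L (fun c hc => by
    obtain ⟨j, hj⟩ := ha c hc
    exact ⟨y j, by rw [← hj, hL]⟩) with ⟨u, hu, h1⟩ | ⟨w, hw⟩
  · left
    intro i j
    obtain ⟨e, he, h2⟩ := h1 (lin K (a i) ^ m) (lin_hom _ _)
    obtain ⟨e', he', h3⟩ := h1 (lin K (a j) ^ m) (lin_hom _ _)
    rw [hL] at h2 h3
    apply hB.closed
    have h4 : (y i / y j) ^ m ∈ E := by
      rw [div_pow, h2, h3, mul_div_mul_left _ _ hu]
      exact E.div_mem he he'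
    exact IsAlgebraic.of_pow (by omega) (isAlgebraic_algebraMap (⟨_, h4⟩ : E))
  · right
    refine ⟨w, fun j => ?_⟩
    rw [← hL j, hw _ (lin_hom _ _), map_pow, lin_eval]

end

end Pool.Agent.H441.DF
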