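import Mathlib

/-!
Powers of linear forms with small integer coefficients span the forms of a given degree.
-/

set_option autoImplicit false

namespace Pool.Agent.H441.DF

open MvPolynomial

variable {k : Type} [Field k] {r : ℕ}

/-- the linear form with the coefficients `c` -/
noncomputable def lin (k : Type) [Field k] {r : ℕ} (c : Fin r → ℕ) : MvPolynomial (Fin r) k :=
  ∑ i, (c i : k) • X i

theorem lin_pow (c : Fin r → ℕ) (m : ℕ) : lin k c ^ m =
    ∑ s ∈ (Finset.univ : Finset (Fin r)).finsuppAntidiag m,
      monomial s ((s.multinomial : k) * ∏ i, (c i : k) ^ s i) := by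
  classical
  ext s
  unfold lin
  rw [coeff_linearCombination_X_pow_of_fintype, coeff_sum]
  simp only [coeff_monomial]
  rw [Finset.sum_ite_eq']
  have h1 : (s ∈ (Finset.univ : Finset (Fin r)).finsuppAntidiag m) ↔ s.sum (fun _ a => a) = m := by
    rw [Finset.mem_finsuppAntidiag]
    simp [Finsupp.sum_fintype]
  simp only [h1]
  split_ifs with h
  · rw [Finsupp.prod_fintype _ _ (fun i => pow_zero _)]
  · rfl

theorem lin_hom (c : Fin r → ℕ) (m : ℕ) : (lin k c ^ m).IsHomogeneous m := by
  have h1 : (lin k c).IsHomogeneous 1 := by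
    unfold lin
    apply IsHomogeneous.sum
    intro i _
    rw [smul_eq_C_mul]
    exact (isHomogeneous_C_mul_X _ _)
  have := h1.pow m
  rwa [one_mul] at this

theorem multinomial_ne [CharZero k] (s : Fin r →₀ ℕ) : ((s.multinomial : ℕ) : k) ≠ 0 := by
  have h : 0 < s.multinomial := by
    rw [Finsupp.multinomial_eq]
    exact Nat.multinomial_pos _ _
  exact_mod_cast h.ne'

/-- a functional which vanishes on the powers -/
theorem vanish [CharZero k] {m : ℕ} (φ : MvPolynomial (Fin r) k →ₗ[k] k)
    (h : ∀ c : Fin r → ℕ, (∀ i, c i ≤ m) → φ (lin k c ^ m) = 0) {F : MvPolynomial (Fin r) k}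
    (hF : F.IsHomogeneous m) : φ F = 0 := by
  classical
  let P : MvPolynomial (Fin r) k := ∑ s ∈ (Finset.univ : Finset (Fin r)).finsuppAntidiag m,
    monomial s ((s.multinomial : k) * φ (monomial s 1))
  have hP : P.IsHomogeneous m := by
    apply IsHomogeneous.sum
    intro s hs
    apply isHomogeneous_monomial
    rw [Finset.mem_finsuppAntidiag] at hs
    rw [Finsupp.degree_eq_sum]
    exact hs.1
  have hev : ∀ c : Fin r → ℕ, eval (fun i => (c i : k)) P = φ (lin k c ^ m) := by
    intro c
    rw [lin_pow, map_sum, map_sum]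
    refine Finset.sum_congr rfl fun s _ => ?_
    rw [eval_monomial, Finsupp.prod_fintype _ _ (fun i => pow_zero _)]
    have e : (monomial s ((s.multinomial : k) * ∏ i, (c i : k) ^ s i) : MvPolynomial (Fin r) k) =
        ((s.multinomial : k) * ∏ i, (c i : k) ^ s i) • monomial s 1 := by
      rw [smul_monomial, smul_eq_mul, mul_one]
    rw [e, map_smul, smul_eq_mul]
    ring
  have hP0 : P = 0 := by
    refine eq_zero_of_eval_zero_at_prod_finset P
      (fun _ => (Finset.range (m + 1)).image (fun n : ℕ => (n : k))) ?_ ?_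
    · intro i
      rw [Finset.card_image_of_injective _ Nat.cast_injective, Finset.card_range]
      have h1 := degreeOf_le_totalDegree P i
      have h2 := hP.totalDegree_le
      omega
    · intro x hx
      have hx' : ∀ i, ∃ n : ℕ, n ≤ m ∧ x i = n := by
        intro i
        obtain ⟨n, hn, hnx⟩ := Finset.mem_image.1 (hx i)
        exact ⟨n, by rw [Finset.mem_range] at hn; omega, hnx.symm⟩
      choose c hc hcx using hx'
      have e : x = fun i => (c i : k) := funext hcx
      rw [e, hev c]
      exact h c hc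
  have hco : ∀ s : Fin r →₀ ℕ, s.sum (fun _ a => a) = m → φ (monomial s 1) = 0 := by
    intro s hs
    have h1 : coeff s P = 0 := by rw [hP0, coeff_zero]
    rw [coeff_sum] at h1
    simp only [coeff_monomial] at h1
    rw [Finset.sum_ite_eq', if_pos] at h1
    · exact (mul_eq_zero.1 h1).resolve_left (multinomial_ne s)
    · rw [Finset.mem_finsuppAntidiag]
      refine ⟨?_, Finset.subset_univ _⟩
      rw [← hs, Finsupp.sum_fintype _ _ (fun _ => rfl)]
  rw [F.as_sum, map_sum]
  refine Finset.sum_eq_zero fun s hs => ?_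
  have e : (monomial s (coeff s F) : MvPolynomial (Fin r) k) = coeff s F • monomial s 1 := by
    rw [smul_monomial, smul_eq_mul, mul_one]
  rw [e, map_smul, hco s, smul_zero]
  have h1 := hF (mem_support_iff.1 hs)
  rw [Finsupp.weight_apply] at h1
  simpa using h1

/-- the index set: the vectors with entries at most `m` -/
theorem span_pow [CharZero k] {m : ℕ} {F : MvPolynomial (Fin r) k} (hF : F.IsHomogeneous m) :
    F ∈ Submodule.span k {G : MvPolynomial (Fin r) k | ∃ c : Fin r → ℕ, (∀ i, c i ≤ m) ∧
      G = lin k c ^ m} := by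
  by_contra hcon
  obtain ⟨φ, hφF, hφ⟩ := Submodule.exists_dual_map_eq_bot_of_notMem hcon inferInstance
  apply hφF
  refine vanish φ (fun c hc => ?_) hF
  have h1 : φ (lin k c ^ m) ∈ Submodule.map φ (Submodule.span k {G : MvPolynomial (Fin r) k |
      ∃ c : Fin r → ℕ, (∀ i, c i ≤ m) ∧ G = lin k c ^ m}) :=
    Submodule.mem_map_of_mem (Submodule.subset_span ⟨c, hc, rfl⟩)
  rw [hφ] at h1
  exact (Submodule.mem_bot _).1 h1

/-- two linear maps which agree on the powers agree -/
theorem lin_ext [CharZero k] {V : Type} [AddCommGroup V] [Module k V] {m : ℕ}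
    {L L' : MvPolynomial (Fin r) k →ₗ[k] V}
    (h : ∀ c : Fin r → ℕ, (∀ i, c i ≤ m) → L (lin k c ^ m) = L' (lin k c ^ m))
    {F : MvPolynomial (Fin r) k} (hF : F.IsHomogeneous m) : L F = L' F := by
  refine LinearMap.eqOn_span (f := L) (g := L') ?_ (span_pow hF)
  rintro _ ⟨c, hc, rfl⟩
  exact h c hc

end Pool.Agent.H441.DF
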