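import Pool.Agent.H441.DF.Curve
import Pool.Graph.R_pool_sql_team_seeded_63374d34.N254.SQ.BlvP

/-!
Equations for the union of the copies of a variety in an intersection of diagonal hypersurfaces.
-/

set_option autoImplicit false

namespace Pool.Agent.H441.DF

open MvPolynomial Pool.Agent.N254.SQ

/-- the diagonal form with the coefficients `c` -/
noncomputable def diagonal {K : Type} [Field K] {N : ℕ} (m : ℕ) (c : Fin (N + 1) → K) :
    MvPolynomial (Fin (N + 1)) K := ∑ j, C (c j) * X j ^ m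

/-- the values of the linear forms with the coefficients `a j` -/
def lins {R : Type} [Field R] {M N : ℕ} (a : Fin (N + 1) → Fin (M + 1) → ℕ)
    (w : Fin (M + 1) → R) : Fin (N + 1) → R := fun j => ∑ l, (a j l : R) * w l

section diag

variable {K : Type} [Field K] {N m : ℕ}

theorem diag_eval₂ {R : Type} [CommSemiring R] (σ : K →+* R) (c : Fin (N + 1) → K)
    (y : Fin (N + 1) → R) : eval₂ σ y (diagonal m c) = ∑ j, σ (c j) * y j ^ m := by
  unfold diagonal
  rw [← coe_eval₂Hom, map_sum]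
  refine Finset.sum_congr rfl fun j _ => ?_
  rw [map_mul, map_pow, coe_eval₂Hom, eval₂_C, eval₂_X]

theorem diag_aeval {R : Type} [CommSemiring R] [Algebra K R] (c : Fin (N + 1) → K)
    (y : Fin (N + 1) → R) : aeval y (diagonal m c) = ∑ j, algebraMap K R (c j) * y j ^ m := by
  rw [aeval_def, diag_eval₂]

theorem diag_hom (c : Fin (N + 1) → K) : (diagonal m c).IsHomogeneous m := by
  unfold diagonal
  apply IsHomogeneous.sum
  intro j _
  have h1 := (isHomogeneous_C (Fin (N + 1)) (c j)).mul ((isHomogeneous_X K j).pow m)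
  have e : 0 + 1 * m = m := by omega
  rwa [e] at h1

end diag

section linsec

variable {R : Type} [Field R] {M N m : ℕ} {a : Fin (N + 1) → Fin (M + 1) → ℕ}

theorem lins_smul (c : R) (w : Fin (M + 1) → R) : lins a (c • w) = c • lins a w := by
  funext j
  unfold lins
  rw [Pi.smul_apply, smul_eq_mul, Finset.mul_sum]
  refine Finset.sum_congr rfl fun l _ => ?_
  rw [Pi.smul_apply, smul_eq_mul]
  ring

theorem lins_unit (hm : 2 ≤ m) (ha : Full m a) (l : Fin (M + 1)) : ∃ j, ∀ (R : Type) [Field R]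
    (w : Fin (M + 1) → R), lins a w j = w l := by
  obtain ⟨j, hj⟩ := ha (Pi.single l 1) (fun i => by
    by_cases hi : i = l
    · subst hi
      rw [Pi.single_eq_same]
      exact one_le_bound hm
    · rw [Pi.single_eq_of_ne hi]
      exact Nat.zero_le _)
  refine ⟨j, fun R _ w => ?_⟩
  unfold lins
  rw [hj, Finset.sum_eq_single l]
  · rw [Pi.single_eq_same, Nat.cast_one, one_mul]
  · intro l' _ hl'
    rw [Pi.single_eq_of_ne hl', Nat.cast_zero, zero_mul]
  · intro h
    exact absurd (Finset.mem_univ l) h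

theorem lins_inj (hm : 2 ≤ m) (ha : Full m a) {w w' : Fin (M + 1) → R}
    (h : lins a w = lins a w') : w = w' := by
  funext l
  obtain ⟨j, hj⟩ := lins_unit hm ha l
  rw [← hj R w, ← hj R w', h]

theorem lins_ne (hm : 2 ≤ m) (ha : Full m a) {w : Fin (M + 1) → R} (hw : w ≠ 0) :
    lins a w ≠ 0 := by
  intro h
  apply hw
  apply lins_inj hm ha
  rw [h]
  funext j
  simp [lins]

theorem lins_prop (hm : 2 ≤ m) (ha : Full m a) {w w' : Fin (M + 1) → R} {c : R}
    (h : lins a w = c • lins a w') : w = c • w' := by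
  apply lins_inj hm ha
  rw [h, lins_smul]

end linsec

/-- lists of exponent vectors -/
theorem exists_mon (n d : ℕ) : ∃ (N : ℕ) (v : Fin (N + 1) → Fin (n + 1) → ℕ), Mon n N d v := by
  classical
  set A : Finset (Fin (n + 1) → ℕ) := Finset.piAntidiag Finset.univ d with hA
  have memA : ∀ α : Fin (n + 1) → ℕ, α ∈ A ↔ ∑ j, α j = d := by
    intro α
    rw [hA, Finset.mem_piAntidiag]
    simp
  have hne : 0 < A.card := Finset.card_pos.2 ⟨Pi.single 0 d, by rw [memA]; simp⟩
  obtain ⟨N, hN⟩ : ∃ N, A.card = N + 1 := ⟨A.card - 1, by omega⟩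
  let e : Fin (N + 1) ≃ A := (Fintype.equivFinOfCardEq (by rw [Fintype.card_coe]; exact hN)).symm
  refine ⟨N, fun j => (e j).1, fun j => (memA _).1 (e j).2, fun i j hij =>
    e.injective (Subtype.ext hij), fun α hα => ⟨e.symm ⟨α, (memA _).2 hα⟩, by simp⟩⟩

section main

set_option linter.unusedSectionVars false

variable {K : Type} [Field K] [CharZero K] {M N m : ℕ} {a : Fin (N + 1) → Fin (M + 1) → ℕ}

theorem aeval_mon {M' : ℕ} (v' : Fin (M' + 1) → Fin (M + 1) → ℕ) {Ω : Type} [Field Ω]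
    [Algebra K Ω] (x : Fin (M + 1) → Ω) (β : Fin (M' + 1)) :
    aeval x (∏ l, X l ^ v' β l : MvPolynomial (Fin (M + 1)) K) = ver v' x β := by
  rw [map_prod]
  simp only [map_pow, aeval_X]
  rfl

/-- linear maps which agree on the monomials -/
theorem mon_ext {M' : ℕ} {v' : Fin (M' + 1) → Fin (M + 1) → ℕ} (hv : Mon M M' m v') {Ω : Type}
    [Field Ω] [Algebra K Ω] {L L' : MvPolynomial (Fin (M + 1)) K →ₗ[K] Ω}
    (h : ∀ β, L (∏ l, X l ^ v' β l) = L' (∏ l, X l ^ v' β l)) {F : MvPolynomial (Fin (M + 1)) K}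
    (hF : F.IsHomogeneous m) : L F = L' F := by
  rw [F.as_sum, map_sum, map_sum]
  refine Finset.sum_congr rfl fun s hs => ?_
  have h1 := hF (mem_support_iff.1 hs)
  obtain ⟨β, hβ⟩ := hv.surj s (by
    rw [Finsupp.weight_apply, Finsupp.sum_fintype _ _ (fun _ => by simp)] at h1
    simpa using h1)
  have e : (monomial s (coeff s F) : MvPolynomial (Fin (M + 1)) K) =
      coeff s F • ∏ l, X l ^ v' β l := by
    rw [monomial_eq, smul_eq_C_mul, Finsupp.prod_fintype _ _ (fun _ => pow_zero _), hβ]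
  rw [e, map_smul, map_smul, h]

theorem zeq (hm : 2 ≤ m) (ha : Full m a) {ι : Type} [Finite ι]
    (q : ι → MvPolynomial (Fin (M + 1)) K) (hq : ∀ i, (q i).IsHomogeneous 2) :
    ∃ (κ : Type) (_ : Finite κ) (Z : κ → MvPolynomial (Fin (N + 1)) K),
      (∀ s, (Z s).IsHomogeneous (m * 2)) ∧
      (∀ (Ω : Type) [Field Ω] [Algebra K Ω] (w : Fin (M + 1) → Ω) (y : Fin (N + 1) → Ω) (t : Ω),
        (∀ i, aeval w (q i) = 0) → (∀ j, y j ^ m = t * (lins a w j) ^ m) →
          ∀ s, aeval y (Z s) = 0) ∧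
      ∀ (Ω : Type) [Field Ω] [Algebra K Ω] (y : Fin (N + 1) → Ω), y ≠ 0 →
        (∀ c, comb K m a c = 0 → ∑ j, algebraMap K Ω (c j) * y j ^ m = 0) →
        (∀ s, aeval y (Z s) = 0) → ∃ (w : Fin (M + 1) → Ω) (t : Ω), w ≠ 0 ∧ t ≠ 0 ∧
          (∀ i, aeval w (q i) = 0) ∧ ∀ j, y j ^ m = t * (lins a w j) ^ m := by
  classical
  obtain ⟨M', v', hv'⟩ := exists_mon M m
  obtain ⟨ι', _, Q, hQ, hQv, hQw⟩ := t_ver K M M' m v' hv' (by omega) ι q (fun _ => 2) hq
    (fun _ => hm)
  have hhom : ∀ β, (∏ l, X l ^ v' β l : MvPolynomial (Fin (M + 1)) K).IsHomogeneous m := by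
    intro β
    have h1 : (∏ l, X l ^ v' β l : MvPolynomial (Fin (M + 1)) K).IsHomogeneous
        (∑ l, 1 * v' β l) :=
      IsHomogeneous.prod _ _ _ fun l _ => (isHomogeneous_X K l).pow _
    simp only [one_mul] at h1
    rwa [hv'.deg] at h1
  choose μ hμ using fun β => comb_surj (m := m) ha (hhom β)
  refine ⟨ι', inferInstance, fun s => aeval (fun β => diagonal m (μ β)) (Q s), fun s => ?_, ?_, ?_⟩
  · exact (hQ s).aeval _ fun β => diag_hom (μ β)
  · intro Ω _ _ w y t hw hy s
    rw [← AlgHom.comp_apply]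
    have e1 : (aeval y).comp (aeval fun β => diagonal m (μ β)) = aeval (t • ver v' w) := by
      apply MvPolynomial.algHom_ext
      intro β
      rw [AlgHom.comp_apply, aeval_X, aeval_X, diag_aeval]
      have h1 := comb_eval (m := m) (a := a) (μ β) w
      rw [hμ, aeval_mon] at h1
      rw [Pi.smul_apply, smul_eq_mul, h1, Finset.mul_sum]
      refine Finset.sum_congr rfl fun j _ => ?_
      rw [hy j]
      unfold lins
      ring
    rw [e1]
    exact blvp_zero _ ⟨2, hQ s⟩ (hQv Ω w hw s)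
  · intro Ω _ _ y hy hrel hZ
    obtain ⟨L, hL⟩ := exists_fun (m := m) (a := a) (Y := fun j => y j ^ m) hrel
    have hLμ : ∀ β, L (∏ l, X l ^ v' β l) = ∑ j, algebraMap K Ω (μ β j) * y j ^ m := by
      intro β
      rw [← hμ β, comb_apply, map_sum]
      refine Finset.sum_congr rfl fun j _ => ?_
      rw [map_smul, hL, Algebra.smul_def]
    have hY0 : (fun β => L (∏ l, X l ^ v' β l)) ≠ 0 := by
      intro h0
      apply hy
      funext j
      have h1 := mon_ext (m := m) hv' (L := L) (L' := 0) (fun β => congrFun h0 β)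
        (lin_hom (a j) m)
      rw [hL, LinearMap.zero_apply] at h1
      exact eq_zero_of_pow_eq_zero h1
    have hQY : ∀ s, aeval (fun β => L (∏ l, X l ^ v' β l)) (Q s) = 0 := by
      intro s
      have h1 := hZ s
      rw [← AlgHom.comp_apply] at h1
      have e1 : (aeval y).comp (aeval fun β => diagonal m (μ β)) =
          aeval (fun β => L (∏ l, X l ^ v' β l)) := by
        apply MvPolynomial.algHom_ext
        intro β
        rw [AlgHom.comp_apply, aeval_X, aeval_X, diag_aeval, hLμ]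
      rwa [e1] at h1
    obtain ⟨x, a₀, b₀, hxa, hb, hx, hqx⟩ := (hQw Ω _ hY0 hQY).2
    refine ⟨x, L (∏ l, X l ^ v' b₀ l), ?_, hb, hqx, fun j => ?_⟩
    · rintro rfl
      exact zero_ne_one hxa
    · have h1 := mon_ext (m := m) hv' (L := L)
        (L' := L (∏ l, X l ^ v' b₀ l) • (aeval x).toLinearMap) (fun β => by
          rw [LinearMap.smul_apply, AlgHom.toLinearMap_apply, aeval_mon, smul_eq_mul]
          exact hx β) (lin_hom (a j) m)
      rw [hL, LinearMap.smul_apply, AlgHom.toLinearMap_apply, map_pow, lin_eval, smul_eq_mul] at h1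
      exact h1

end main

end Pool.Agent.H441.DF
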